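import Pool.Agent.MP_4a5f01_pr.Defs
import Pool.Agent.Lib.BorsukUlam.Basic

-- part MP_4a5f01_pr.Meas
section

set_option autoImplicit false

namespace Pool.Agent.MP_4a5f01_pr

open MeasureTheory Metric Set Filter Topology
open scoped ENNReal

abbrev Eu (d : ℕ) : Type := EuclideanSpace ℝ (Fin (d + 1))

variable {d : ℕ}

theorem nrm (x : Sph d) : ‖(x : Eu d)‖ = 1 := norm_eq_of_mem_sphere x

theorem dist_coe (x y : Sph d) : dist x y = ‖(x : Eu d) - y‖ := by
  rw [Subtype.dist_eq, dist_eq_norm]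

theorem dist_neg_coe (x y : Sph d) : dist x (-y) = ‖(x : Eu d) + y‖ := by
  rw [dist_coe]; simp

theorem dist_neg_neg' (x y : Sph d) : dist (-x) (-y) = dist x y := by
  rw [dist_coe, dist_coe]; simp [norm_sub_rev, neg_add_eq_sub]

theorem dist_neg_comm (x y : Sph d) : dist (-x) y = dist x (-y) := by
  rw [← dist_neg_neg', neg_neg]

theorem dist_neg_self (x : Sph d) : dist x (-x) = 2 := by
  rw [dist_neg_coe, ← two_smul ℝ, norm_smul, nrm]; simp

/-- separated finite sets -/
def Sep (s : ℝ) (Z : Finset (Sph d)) : Prop := ∀ x ∈ Z, ∀ y ∈ Z, x ≠ y → s ≤ dist x y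

theorem vol_ball (x : Eu d) {r : ℝ} (hr : 0 < r) :
    volume.real (ball x r) = r ^ (d + 1) * volume.real (ball (0 : Eu d) 1) := by
  simp only [measureReal_def, Measure.addHaar_ball_of_pos volume x hr, ENNReal.toReal_mul]
  rw [ENNReal.toReal_ofReal (by positivity)]; simp

theorem vol_pos : 0 < volume.real (ball (0 : Eu d) 1) :=
  ENNReal.toReal_pos (measure_ball_pos volume _ one_pos).ne' measure_ball_lt_top.ne

theorem pack_vol {s : ℝ} (hs : 0 < s) {Z : Finset (Sph d)} (hZ : Sep s Z) {B : Set (Eu d)}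
    (hB : volume B ≠ ∞) (h : ∀ z ∈ Z, ball (z : Eu d) (s / 2) ⊆ B) :
    Z.card * ((s / 2) ^ (d + 1) * volume.real (ball (0 : Eu d) 1)) ≤ volume.real B := by
  have h1 : volume.real (⋃ z ∈ Z, ball (z : Eu d) (s / 2)) =
      ∑ z ∈ Z, volume.real (ball (z : Eu d) (s / 2)) := by
    apply measureReal_biUnion_finset
    · intro x hx y hy hxy
      apply ball_disjoint_ball
      have := hZ x hx y hy hxy
      rw [Subtype.dist_eq] at this
      linarith
    · intro z _; exact measurableSet_ball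
    · intro z _; exact measure_ball_lt_top.ne
  have h2 : volume.real (⋃ z ∈ Z, ball (z : Eu d) (s / 2)) ≤ volume.real B :=
    measureReal_mono (iUnion₂_subset h) hB
  rw [h1] at h2
  simp only [vol_ball _ (half_pos hs), Finset.sum_const, nsmul_eq_mul] at h2
  exact h2

theorem pack_ball {s R : ℝ} (hs : 0 < s) (hR : 0 ≤ R) {Z : Finset (Sph d)} (hZ : Sep s Z)
    (c : Sph d) (h : ∀ z ∈ Z, dist z c ≤ R) : (Z.card : ℝ) ≤ ((2 * R + s) / s) ^ (d + 1) := by
  have h1 := pack_vol hs hZ (B := ball (c : Eu d) (R + s / 2)) measure_ball_lt_top.ne (by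
    intro z hz
    apply ball_subset_ball'
    have := h z hz
    rw [Subtype.dist_eq] at this
    linarith)
  rw [vol_ball (r := R + s / 2) _ (by positivity), ← mul_assoc] at h1
  have h2 := le_of_mul_le_mul_right h1 vol_pos
  have : (2 * R + s) / s = (R + s / 2) / (s / 2) := by field_simp
  rw [this, div_pow, le_div_iff₀ (by positivity)]
  exact h2

theorem pack_sphere {s : ℝ} (hs : 0 < s) (hs1 : s ≤ 1) {Z : Finset (Sph d)} (hZ : Sep s Z) :
    (Z.card : ℝ) * s ^ d ≤ (d + 1) * 2 ^ (2 * d + 1) := by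
  have h1 := pack_vol hs hZ (B := ball (0 : Eu d) (1 + s / 2) \ ball (0 : Eu d) (1 - s / 2))
    (ne_top_of_le_ne_top measure_ball_lt_top.ne (measure_mono sdiff_subset)) (by
    intro z _ y hy
    rw [mem_ball, dist_eq_norm] at hy
    have h1 := nrm z
    have h2 := abs_norm_sub_norm_le y (z : Eu d)
    rw [h1, abs_le] at h2
    simp only [Set.mem_sdiff, mem_ball, dist_zero_right, not_lt]
    constructor <;> linarith)
  rw [measureReal_sdiff (ball_subset_ball (by linarith)) measurableSet_ball measure_ball_lt_top.ne,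
    vol_ball (r := 1 + s / 2) _ (by linarith), vol_ball (r := 1 - s / 2) _ (by linarith), ← sub_mul,
    ← mul_assoc] at h1
  have h2 := le_of_mul_le_mul_right h1 vol_pos
  have h3 := abs_pow_sub_pow_le (a := 1 + s / 2) (b := 1 - s / 2) (n := d + 1)
  have h4 : max |1 + s / 2| |1 - s / 2| ≤ 2 := by
    rw [max_le_iff, abs_le, abs_le]; refine ⟨⟨?_, ?_⟩, ?_, ?_⟩ <;> linarith
  have h5 : max |1 + s / 2| |1 - s / 2| ^ (d + 1 - 1) ≤ 2 ^ d := by
    rw [Nat.add_sub_cancel]
    exact pow_le_pow_left₀ (le_max_of_le_left (abs_nonneg _)) h4 d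
  have h6 : |1 + s / 2 - (1 - s / 2)| = s := by
    rw [abs_of_pos] <;> linarith
  rw [h6] at h3
  have h7 : (1 + s / 2) ^ (d + 1) - (1 - s / 2) ^ (d + 1) ≤ s * (d + 1) * 2 ^ d := by
    refine (le_abs_self _).trans (h3.trans ?_)
    push_cast
    gcongr
  have h8 : (Z.card : ℝ) * (s / 2) ^ (d + 1) = s * (Z.card * s ^ d / 2 ^ (d + 1)) := by
    rw [div_pow]; ring
  have h9 := h2.trans h7
  rw [h8, mul_assoc] at h9
  have h10 := le_of_mul_le_mul_left h9 hs
  rw [div_le_iff₀ (by positivity)] at h10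
  calc _ ≤ _ := h10
    _ = _ := by ring

theorem exists_net (A : Set (Sph d)) {s : ℝ} (hs : 0 < s) :
    ∃ Z : Finset (Sph d), (∀ z ∈ Z, z ∈ A) ∧ Sep s Z ∧ ∀ x ∈ A, ∃ z ∈ Z, dist x z < s := by
  classical
  let P : ℕ → Prop := fun k => ∃ Z : Finset (Sph d), (∀ z ∈ Z, z ∈ A) ∧ Sep s Z ∧ Z.card = k
  obtain ⟨N, hN⟩ := exists_nat_ge (((2 * 2 + s) / s) ^ (d + 1))
  have hb : ∀ k, P k → k ≤ N := by
    rintro k ⟨Z, -, hZ, rfl⟩
    let c : Sph d := ⟨EuclideanSpace.single 0 1, by simp⟩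
    have := pack_ball hs (by norm_num : (0 : ℝ) ≤ 2) hZ c (fun z _ => by
      rw [dist_coe]
      refine (norm_sub_le _ _).trans ?_
      rw [nrm, nrm]; norm_num)
    exact_mod_cast this.trans hN
  have h0 : P 0 := ⟨∅, by simp, by simp [Sep], rfl⟩
  obtain ⟨Z, hA, hZ, hc⟩ : P (Nat.findGreatest P N) := Nat.findGreatest_spec (Nat.zero_le N) h0
  refine ⟨Z, hA, hZ, fun x hx => ?_⟩
  by_contra hc'
  push Not at hc'
  have hxZ : x ∉ Z := fun h => by
    have := hc' x h
    rw [dist_self] at this; linarith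
  have hP : P (Nat.findGreatest P N + 1) := by
    refine ⟨insert x Z, ?_, ?_, by rw [Finset.card_insert_of_notMem hxZ, hc]⟩
    · intro z hz
      rcases Finset.mem_insert.1 hz with rfl | hz
      exacts [hx, hA z hz]
    · intro y hy z hz hyz
      rcases Finset.mem_insert.1 hy with h1 | h1 <;> rcases Finset.mem_insert.1 hz with h2 | h2
      · exact absurd (h1.trans h2.symm) hyz
      · rw [h1]; exact hc' z h2
      · rw [dist_comm, h2]; exact hc' y h1
      · exact hZ y h1 z h2 hyz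
  exact Nat.findGreatest_is_greatest (Nat.lt_succ_self _) (hb _ hP) hP

theorem haus_lt_top : Measure.hausdorffMeasure (d : ℝ) (univ : Set (Sph d)) < ∞ := by
  have hs : ∀ n : ℕ, (0 : ℝ) < 1 / (n + 1) := fun n => by positivity
  choose Z _ hZ hc using fun n : ℕ => exists_net (univ : Set (Sph d)) (hs n)
  have h1 := Measure.hausdorffMeasure_le_liminf_sum (ι := fun n : ℕ => Z n) (d : ℝ)
    (univ : Set (Sph d)) (l := atTop) (fun n : ℕ => ENNReal.ofReal (2 * (1 / (n + 1))))
    (by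
      have : Tendsto (fun n : ℕ => (2 * (1 / (n + 1)) : ℝ)) atTop (𝓝 (2 * 0)) :=
        tendsto_one_div_add_atTop_nhds_zero_nat.const_mul 2
      simpa using ENNReal.tendsto_ofReal this)
    (fun n i => ball (i : Sph d) (1 / (n + 1)))
    (Eventually.of_forall fun n i => ediam_le_of_forall_dist_le fun x hx y hy => by
      have := dist_triangle_right x y (i : Sph d)
      rw [mem_ball] at hx hy
      linarith)
    (Eventually.of_forall fun n x _ => by
      obtain ⟨z, hz, h⟩ := hc n x (mem_univ _)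
      exact mem_iUnion.2 ⟨⟨z, hz⟩, h⟩)
  refine lt_of_le_of_lt (h1.trans (liminf_le_of_frequently_le' (Frequently.of_forall fun n => ?_)))
    (ENNReal.ofReal_lt_top (r := 2 ^ d * ((d + 1) * 2 ^ (2 * d + 1))))
  have h2 : ∀ i : Z n, ediam (ball (i : Sph d) (1 / (n + 1))) ^ (d : ℝ) ≤
      ENNReal.ofReal ((2 * (1 / (n + 1))) ^ d) := by
    intro i
    rw [ENNReal.ofReal_pow (by positivity), ENNReal.rpow_natCast]
    gcongr
    exact ediam_le_of_forall_dist_le fun x hx y hy => by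
      have := dist_triangle_right x y (i : Sph d)
      rw [mem_ball] at hx hy
      linarith
  refine (Finset.sum_le_sum fun i _ => h2 i).trans ?_
  rw [Finset.sum_const, nsmul_eq_mul, ← ENNReal.ofReal_natCast, ← ENNReal.ofReal_mul (by positivity)]
  apply ENNReal.ofReal_le_ofReal
  have h3 := pack_sphere (hs n) (by
    rw [div_le_one (by positivity)]; linarith [(Nat.cast_nonneg n : (0 : ℝ) ≤ n)]) (hZ n)
  simp only [Finset.card_univ, Fintype.card_coe, mul_pow]
  calc _ = 2 ^ d * (((Z n).card : ℝ) * (1 / (n + 1)) ^ d) := by ring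
    _ ≤ _ := by gcongr

theorem haus_pos : 0 < Measure.hausdorffMeasure (d : ℝ) (univ : Set (Sph d)) := by
  let f : Sph d → EuclideanSpace ℝ (Fin d) := fun x => WithLp.toLp 2 fun i => (x : Eu d) i.castSucc
  have hf : LipschitzWith 1 f := by
    apply LipschitzWith.of_dist_le_mul
    intro x y
    rw [NNReal.coe_one, one_mul, Subtype.dist_eq, EuclideanSpace.dist_eq, EuclideanSpace.dist_eq,
      Fin.sum_univ_castSucc]
    apply Real.sqrt_le_sqrt
    simp only [f]
    exact le_add_of_nonneg_right (sq_nonneg _)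
  have h1 := hf.hausdorffMeasure_image_le (d := (d : ℝ)) (by positivity) univ
  have h2 : ball (0 : EuclideanSpace ℝ (Fin d)) 1 ⊆ f '' univ := by
    intro y hy
    rw [mem_ball, dist_zero_right] at hy
    have hy2 : 0 ≤ 1 - ‖y‖ ^ 2 := by nlinarith [norm_nonneg y]
    refine ⟨⟨WithLp.toLp 2 (Fin.snoc (α := fun _ => ℝ) y (Real.sqrt (1 - ‖y‖ ^ 2))), ?_⟩,
      mem_univ _, ?_⟩
    · rw [mem_sphere_zero_iff_norm, EuclideanSpace.norm_eq, Fin.sum_univ_castSucc]
      simp only [Fin.snoc_castSucc, Fin.snoc_last, Real.norm_eq_abs, sq_abs]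
      rw [Real.sq_sqrt hy2, EuclideanSpace.real_norm_sq_eq]
      simp
    · ext i; simp [f]
  have h3 : 0 < Measure.hausdorffMeasure (d : ℝ) (ball (0 : EuclideanSpace ℝ (Fin d)) 1) := by
    have := isAddHaarMeasure_hausdorffMeasure (E := EuclideanSpace ℝ (Fin d))
    rw [finrank_euclideanSpace_fin] at this
    exact measure_ball_pos _ _ one_pos
  have := h3.trans_le ((measure_mono h2).trans h1)
  simpa using this

instance : IsProbabilityMeasure (unif d) :=
  ⟨by simp only [unif, Measure.smul_apply, smul_eq_mul]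
      exact ENNReal.inv_mul_cancel haus_pos.ne' haus_lt_top.ne⟩

/-- Lipschitz maps of the sphere -/
theorem unif_image_le {K : ℝ} (hK : 0 ≤ K) {f : Sph d → Sph d} {A : Set (Sph d)}
    (h : ∀ x ∈ A, ∀ y ∈ A, dist (f x) (f y) ≤ K * dist x y) :
    (unif d).real (f '' A) ≤ K ^ d * (unif d).real A := by
  have hf : LipschitzOnWith ⟨K, hK⟩ f A := LipschitzOnWith.of_dist_le_mul h
  have h1 := hf.hausdorffMeasure_image_le (d := (d : ℝ)) (by positivity)
  have h2 : unif d (f '' A) ≤ ENNReal.ofReal (K ^ d) * unif d A := by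
    simp only [unif, Measure.smul_apply, smul_eq_mul]
    rw [mul_left_comm]
    gcongr
    rw [ENNReal.ofReal_pow hK, ENNReal.ofReal_eq_coe_nnreal hK, ← ENNReal.rpow_natCast]
    exact h1
  have h3 := ENNReal.toReal_mono (ENNReal.mul_ne_top ENNReal.ofReal_ne_top (measure_ne_top _ _)) h2
  rwa [ENNReal.toReal_mul, ENNReal.toReal_ofReal (by positivity)] at h3

theorem unif_ball_le (x y : Sph d) (s : ℝ) :
    (unif d).real (ball y s) ≤ (unif d).real (ball x s) := by
  let R : Eu d ≃ₗᵢ[ℝ] Eu d := Submodule.reflection (ℝ ∙ ((x : Eu d) - y))ᗮ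
  have hR : R x = y := Submodule.reflection_sub (by rw [nrm, nrm])
  let f : Sph d → Sph d := fun z => ⟨R z, by simp⟩
  have h1 := unif_image_le (K := 1) zero_le_one (f := f) (A := ball x s) (by
    intro a _ b _
    rw [one_mul, Subtype.dist_eq, Subtype.dist_eq]
    exact (R.dist_map _ _).le)
  rw [one_pow, one_mul] at h1
  refine (measureReal_mono ?_ (measure_ne_top _ _)).trans h1
  intro z hz
  refine ⟨⟨R.symm z, by simp⟩, ?_, Subtype.ext (by simp [f])⟩
  rw [mem_ball, Subtype.dist_eq] at hz ⊢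
  rw [← R.dist_map]
  simpa [hR] using hz

theorem ball_lower : ∃ c : ℝ, 0 < c ∧ ∀ (x : Sph d) (s : ℝ), 0 < s → s ≤ 1 →
    c * s ^ d ≤ (unif d).real (ball x s) := by
  refine ⟨((d + 1) * 2 ^ (2 * d + 1) : ℝ)⁻¹, by positivity, fun x s hs hs1 => ?_⟩
  obtain ⟨Z, -, hZ, hc⟩ := exists_net (univ : Set (Sph d)) hs
  have h1 : (1 : ℝ) ≤ Z.card * (unif d).real (ball x s) := by
    calc (1 : ℝ) = (unif d).real univ := by simp
      _ ≤ (unif d).real (⋃ z ∈ Z, ball z s) := by
          refine measureReal_mono (fun y _ => ?_) (measure_ne_top _ _)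
          obtain ⟨z, hz, h⟩ := hc y (mem_univ _)
          exact mem_biUnion hz h
      _ ≤ ∑ z ∈ Z, (unif d).real (ball z s) := measureReal_biUnion_finset_le _ _
      _ ≤ ∑ z ∈ Z, (unif d).real (ball x s) := Finset.sum_le_sum fun z _ => unif_ball_le x z s
      _ = _ := by simp
  have h2 := pack_sphere hs hs1 hZ
  rw [inv_mul_le_iff₀ (by positivity)]
  have h3 : 0 ≤ (unif d).real (ball x s) := measureReal_nonneg
  have h4 : 0 ≤ s ^ d := by positivity
  nlinarith

end Pool.Agent.MP_4a5f01_pr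

end

-- part MP_4a5f01_pr.Geo
section

set_option autoImplicit false

namespace Pool.Agent.MP_4a5f01_pr

open MeasureTheory Metric Set Filter Topology

section Proj

variable {E : Type*} [NormedAddCommGroup E] [InnerProductSpace ℝ E]

/-- nearest point projection onto the closed ball of radius `R` -/
noncomputable def proj (R : ℝ) (z : E) : E := (R / max R ‖z‖) • z

theorem proj_of_le {R : ℝ} (hR : 0 < R) {z : E} (h : ‖z‖ ≤ R) : proj R z = z := by
  simp [proj, max_eq_left h, hR.ne']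

theorem proj_of_ge {R : ℝ} {z : E} (h : R ≤ ‖z‖) : proj R z = (R / ‖z‖) • z := by
  simp [proj, max_eq_right h]

theorem proj_neg (R : ℝ) (z : E) : proj R (-z) = -proj R z := by simp [proj]

theorem norm_proj_of_ge {R : ℝ} (hR : 0 < R) {z : E} (h : R ≤ ‖z‖) : ‖proj R z‖ = R := by
  have : 0 < ‖z‖ := hR.trans_le h
  rw [proj_of_ge h, norm_smul, Real.norm_eq_abs, abs_of_pos (by positivity)]
  field_simp

theorem norm_proj_le {R : ℝ} (hR : 0 < R) (z : E) : ‖proj R z‖ ≤ R := by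
  rcases le_total ‖z‖ R with h | h
  · rwa [proj_of_le hR h]
  · exact (norm_proj_of_ge hR h).le

theorem proj_var {R : ℝ} (hR : 0 < R) (z b : E) (hb : ‖b‖ ≤ R) :
    inner ℝ (z - proj R z) (b - proj R z) ≤ 0 := by
  rcases le_total ‖z‖ R with h | h
  · simp [proj_of_le hR h]
  · have hz : 0 < ‖z‖ := hR.trans_le h
    have h1 : z - proj R z = (‖z‖ / R - 1) • proj R z := by
      rw [proj_of_ge h, smul_smul, sub_mul, sub_smul]
      congr 1
      · rw [show ‖z‖ / R * (R / ‖z‖) = 1 by field_simp, one_smul]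
      · rw [one_mul]
    rw [h1, real_inner_smul_left, inner_sub_right, real_inner_self_eq_norm_sq,
      norm_proj_of_ge hR h]
    have h2 : 0 ≤ ‖z‖ / R - 1 := by rw [sub_nonneg, le_div_iff₀ hR]; linarith
    have h3 := real_inner_le_norm (proj R z) b
    rw [norm_proj_of_ge hR h] at h3
    exact mul_nonpos_of_nonneg_of_nonpos h2 (by nlinarith)

theorem proj_lip {R : ℝ} (hR : 0 < R) (z w : E) : ‖proj R z - proj R w‖ ≤ ‖z - w‖ := by
  have h1 := proj_var hR z _ (norm_proj_le hR w)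
  have h2 := proj_var hR w _ (norm_proj_le hR z)
  set a := proj R z
  set b := proj R w
  have h3 : ‖a - b‖ ^ 2 ≤ inner ℝ (z - w) (a - b) := by
    have e1 : inner ℝ (z - w) (a - b) =
        inner ℝ (a - b) (a - b) - inner ℝ (z - a) (b - a) - inner ℝ (w - b) (a - b) := by
      simp only [inner_sub_left, inner_sub_right]; ring
    rw [e1, real_inner_self_eq_norm_sq]; linarith
  have h4 := real_inner_le_norm (z - w) (a - b)
  by_contra hc
  push Not at hc
  nlinarith [norm_nonneg (z - w)]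

theorem norm_proj_sub {z : E} (h : 1 ≤ ‖z‖) : ‖proj 1 z - z‖ = ‖z‖ - 1 := by
  have hz : 0 < ‖z‖ := one_pos.trans_le h
  have : proj 1 z - z = (1 - ‖z‖) • proj 1 z := by
    rw [sub_smul, one_smul, proj_of_ge h, smul_smul]
    congr 1
    rw [show ‖z‖ * (1 / ‖z‖) = 1 by field_simp, one_smul]
  rw [this, norm_smul, norm_proj_of_ge one_pos h, Real.norm_eq_abs, abs_of_nonpos (by linarith)]
  ring

theorem smul_proj {z : E} (h : 1 ≤ ‖z‖) : ‖z‖ • proj 1 z = z := by
  have hz : 0 < ‖z‖ := one_pos.trans_le h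
  rw [proj_of_ge h, smul_smul, show ‖z‖ * (1 / ‖z‖) = 1 by field_simp, one_smul]

theorem norm_sq_dil {q x : E} (hq : ‖q‖ = 1) (hx : ‖x‖ = 1) (κ : ℝ) :
    ‖q + κ • (x - q)‖ ^ 2 = 1 + κ * (κ - 1) * ‖x - q‖ ^ 2 := by
  have h1 : ‖q + (x - q)‖ ^ 2 = 1 := by simp [hx]
  rw [norm_add_sq_real] at h1 ⊢
  rw [inner_smul_right, norm_smul, Real.norm_eq_abs, mul_pow, sq_abs]
  rw [hq] at h1 ⊢
  linear_combination κ * h1

theorem one_le_dil {q x : E} (hq : ‖q‖ = 1) (hx : ‖x‖ = 1) {κ : ℝ} (hκ : 1 ≤ κ) :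
    1 ≤ ‖q + κ • (x - q)‖ := by
  have h1 := norm_sq_dil hq hx κ
  have h2 : 0 ≤ κ * (κ - 1) * ‖x - q‖ ^ 2 := by
    have : 0 ≤ κ - 1 := by linarith
    positivity
  nlinarith [norm_nonneg (q + κ • (x - q))]

/-- the displacement field of the magnifying map -/
noncomputable def disp (ϱ l : ℝ) (q x : E) : E := proj ϱ (l • (x - q)) - proj ϱ (x - q)

theorem disp_neg (ϱ l : ℝ) (q x : E) : disp ϱ l (-q) (-x) = -disp ϱ l q x := by
  have : -x - -q = -(x - q) := by abel
  simp only [disp, this, smul_neg, proj_neg]; abel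

theorem disp_far {ϱ l : ℝ} (hϱ : 0 < ϱ) (hl : 1 ≤ l) {q x : E} (h : ϱ ≤ ‖x - q‖) :
    disp ϱ l q x = 0 := by
  have h0 : 0 < ‖x - q‖ := hϱ.trans_le h
  have hn : ‖l • (x - q)‖ = l * ‖x - q‖ := by
    rw [norm_smul, Real.norm_eq_abs, abs_of_pos (by linarith)]
  have : 0 < l := by linarith
  rw [disp, proj_of_ge h, proj_of_ge (by rw [hn]; nlinarith), hn, smul_smul, sub_eq_zero]
  congr 1
  field_simp

theorem disp_lip {ϱ l : ℝ} (hϱ : 0 < ϱ) (hl : 1 ≤ l) (q x y : E) :
    ‖(x + disp ϱ l q x) - (y + disp ϱ l q y)‖ ≤ (l + 2) * ‖x - y‖ := by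
  have h1 := proj_lip hϱ (l • (x - q)) (l • (y - q))
  have h2 := proj_lip hϱ (x - q) (y - q)
  rw [← smul_sub, norm_smul, Real.norm_eq_abs, abs_of_pos (by linarith)] at h1
  have e : x - q - (y - q) = x - y := by abel
  rw [e] at h1 h2
  have : (x + disp ϱ l q x) - (y + disp ϱ l q y) = (x - y) +
      ((proj ϱ (l • (x - q)) - proj ϱ (l • (y - q))) - (proj ϱ (x - q) - proj ϱ (y - q))) := by
    simp only [disp]; abel
  rw [this]
  refine (norm_add_le _ _).trans ?_
  have := norm_sub_le (proj ϱ (l • (x - q)) - proj ϱ (l • (y - q)))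
    (proj ϱ (x - q) - proj ϱ (y - q))
  linarith

theorem disp_near {ϱ l : ℝ} (hϱ : 0 < ϱ) (hl : 1 ≤ l) {q x : E} (h : ‖x - q‖ ≤ ϱ / l) :
    x + disp ϱ l q x = q + l • (x - q) := by
  have hl0 : 0 < l := by linarith
  rw [le_div_iff₀ hl0] at h
  have hn : ‖l • (x - q)‖ = l * ‖x - q‖ := by
    rw [norm_smul, Real.norm_eq_abs, abs_of_pos (by linarith)]
  rw [disp, proj_of_le hϱ (by rw [hn]; linarith), proj_of_le hϱ (by nlinarith [norm_nonneg (x - q)])]
  abel

theorem disp_mid {ϱ l : ℝ} (hϱ : 0 < ϱ) (hl : 1 ≤ l) {q x : E} (h : ϱ / l ≤ ‖x - q‖)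
    (h' : ‖x - q‖ ≤ ϱ) :
    ∃ κ : ℝ, 1 ≤ κ ∧ κ * ‖x - q‖ = ϱ ∧ x + disp ϱ l q x = q + κ • (x - q) := by
  have hl0 : 0 < l := by linarith
  have h0 : 0 < ‖x - q‖ := lt_of_lt_of_le (by positivity) h
  rw [div_le_iff₀ hl0] at h
  have hn : ‖l • (x - q)‖ = l * ‖x - q‖ := by
    rw [norm_smul, Real.norm_eq_abs, abs_of_pos (by linarith)]
  refine ⟨ϱ / ‖x - q‖, by rwa [le_div_iff₀ h0, one_mul], by field_simp, ?_⟩
  rw [disp, proj_of_ge (by rw [hn]; linarith), proj_of_le hϱ h', hn, smul_smul]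
  have : ϱ / (l * ‖x - q‖) * l = ϱ / ‖x - q‖ := by field_simp
  rw [this]; abel

/-- distance from the centre after normalising -/
theorem dil_dist {q x : E} (hq : ‖q‖ = 1) (hx : ‖x‖ = 1) {κ ϱ : ℝ} (hκ : 1 ≤ κ)
    (h : κ * ‖x - q‖ ≤ ϱ) :
    |‖proj 1 (q + κ • (x - q)) - q‖ - κ * ‖x - q‖| ≤ ϱ ^ 2 / 2 := by
  have h1 := one_le_dil hq hx hκ
  have h2 := norm_sq_dil hq hx κ
  have h3 := norm_proj_sub h1
  have h4 := abs_norm_sub_norm_le (proj 1 (q + κ • (x - q)) - q) (κ • (x - q))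
  have e : proj 1 (q + κ • (x - q)) - q - κ • (x - q) =
      proj 1 (q + κ • (x - q)) - (q + κ • (x - q)) := by abel
  rw [e, h3, norm_smul, Real.norm_eq_abs, abs_of_pos (show 0 < κ by linarith)] at h4
  refine h4.trans ?_
  have h5 : 0 ≤ κ * ‖x - q‖ := by positivity
  have h6 : (κ * ‖x - q‖) ^ 2 ≤ ϱ ^ 2 := by gcongr
  have h7 : 0 ≤ κ * ‖x - q‖ ^ 2 := by positivity
  nlinarith

theorem dil_anti {q x y : E} (hq : ‖q‖ = 1) (hx : ‖x‖ = 1) (hy : ‖y‖ = 1) {l ϱ : ℝ} (hl : 1 ≤ l)
    (h1 : l * ‖x - q‖ ≤ ϱ) (h2 : l * ‖y - q‖ ≤ ϱ) :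
    (1 - ϱ) * l * ‖x - y‖ ≤
      (1 + ϱ) * ‖proj 1 (q + l • (x - q)) - proj 1 (q + l • (y - q))‖ := by
  have hl0 : 0 < l := by linarith
  set A := q + l • (x - q) with hA
  set B := q + l • (y - q) with hB
  have a1 : 1 ≤ ‖A‖ := one_le_dil hq hx hl
  have b1 : 1 ≤ ‖B‖ := one_le_dil hq hy hl
  have a2 : ‖A‖ ^ 2 = 1 + l * (l - 1) * ‖x - q‖ ^ 2 := norm_sq_dil hq hx l
  have b2 : ‖B‖ ^ 2 = 1 + l * (l - 1) * ‖y - q‖ ^ 2 := norm_sq_dil hq hy l
  have a3 : ‖A‖ ≤ 1 + ϱ := by
    refine (norm_add_le _ _).trans ?_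
    rw [hq, norm_smul, Real.norm_eq_abs, abs_of_pos hl0]; linarith
  have e1 : ‖A - B‖ = l * ‖x - y‖ := by
    have : A - B = l • (x - y) := by simp only [hA, hB, smul_sub]; abel
    rw [this, norm_smul, Real.norm_eq_abs, abs_of_pos hl0]
  have e2 : A - B = ‖A‖ • (proj 1 A - proj 1 B) + (‖A‖ - ‖B‖) • proj 1 B := by
    rw [smul_sub, sub_smul, smul_proj a1, smul_proj b1]; abel
  have e3 : ‖A - B‖ ≤ ‖A‖ * ‖proj 1 A - proj 1 B‖ + |‖A‖ - ‖B‖| := by
    rw [e2]
    refine (norm_add_le _ _).trans ?_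
    rw [norm_smul, norm_smul, norm_proj_of_ge one_pos b1, norm_norm, Real.norm_eq_abs, mul_one]
  have e4 : |‖x - q‖ - ‖y - q‖| ≤ ‖x - y‖ := by
    have := abs_norm_sub_norm_le (x - q) (y - q)
    rwa [show x - q - (y - q) = x - y by abel] at this
  have e5 : |‖A‖ - ‖B‖| * 2 ≤ 2 * ϱ * (l * ‖x - y‖) := by
    calc |‖A‖ - ‖B‖| * 2 ≤ |‖A‖ - ‖B‖| * (‖A‖ + ‖B‖) := by gcongr; linarith
      _ = |‖A‖ ^ 2 - ‖B‖ ^ 2| := by
          rw [sq_sub_sq, abs_mul, abs_of_pos (show 0 < ‖A‖ + ‖B‖ by linarith), mul_comm]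
      _ = (l - 1) * ((l * ‖x - q‖ + l * ‖y - q‖) * |‖x - q‖ - ‖y - q‖|) := by
          rw [a2, b2, show 1 + l * (l - 1) * ‖x - q‖ ^ 2 - (1 + l * (l - 1) * ‖y - q‖ ^ 2) =
            (l - 1) * ((l * ‖x - q‖ + l * ‖y - q‖) * (‖x - q‖ - ‖y - q‖)) by ring, abs_mul,
            abs_mul, abs_of_nonneg (show 0 ≤ l - 1 by linarith), abs_of_nonneg (by positivity)]
      _ ≤ l * ((ϱ + ϱ) * ‖x - y‖) := by
          have : 0 ≤ ϱ := le_trans (by positivity) h1
          gcongr
          linarith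
      _ = _ := by ring
  have e6 : ‖A‖ * ‖proj 1 A - proj 1 B‖ ≤ (1 + ϱ) * ‖proj 1 A - proj 1 B‖ := by gcongr
  nlinarith

end Proj

variable {d : ℕ}

/-- pull back of a set under the magnification around `q` -/
def pull (q : Sph d) (ϱ l : ℝ) (A : Set (Sph d)) : Set (Sph d) :=
  {x | dist x q < ϱ / l ∧ ∃ y ∈ A, (y : Eu d) = proj 1 ((q : Eu d) + l • ((x : Eu d) - q))}

theorem pull_le (q : Sph d) {ϱ l : ℝ} (hϱ : 0 < ϱ) (hϱ1 : ϱ < 1) (hl : 1 ≤ l) (A : Set (Sph d)) :
    (unif d).real (pull q ϱ l A) ≤ ((1 + ϱ) / ((1 - ϱ) * l)) ^ d * (unif d).real A := by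
  classical
  have hl0 : 0 < l := by linarith
  have h1ϱ : 0 < 1 - ϱ := by linarith
  let Rl : Sph d → Sph d → Prop := fun y x =>
    dist x q < ϱ / l ∧ (y : Eu d) = proj 1 ((q : Eu d) + l • ((x : Eu d) - q))
  have key : ∀ y x y' x', Rl y x → Rl y' x' →
      dist x x' ≤ (1 + ϱ) / ((1 - ϱ) * l) * dist y y' := by
    rintro y x y' x' ⟨h1, h2⟩ ⟨h3, h4⟩
    rw [dist_coe, lt_div_iff₀ hl0] at h1 h3
    have := dil_anti (nrm q) (nrm x) (nrm x') hl (ϱ := ϱ) (by linarith) (by linarith)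
    rw [dist_coe, dist_coe, h2, h4, div_mul_eq_mul_div, le_div_iff₀ (by positivity)]
    linarith
  let f : Sph d → Sph d := fun y => if h : ∃ x, Rl y x then h.choose else q
  have hf : ∀ y, (∃ x, Rl y x) → Rl y (f y) := fun y h => by
    simp only [f, dif_pos h]; exact h.choose_spec
  have h1 := unif_image_le (K := (1 + ϱ) / ((1 - ϱ) * l)) (by positivity) (f := f)
    (A := {y ∈ A | ∃ x, Rl y x}) fun y hy y' hy' => key _ _ _ _ (hf y hy.2) (hf y' hy'.2)
  refine (measureReal_mono ?_ (measure_ne_top _ _)).trans (h1.trans ?_)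
  · rintro x ⟨hx, y, hy, hxy⟩
    refine ⟨y, ⟨hy, x, hx, hxy⟩, ?_⟩
    have := key y (f y) y x (hf y ⟨x, hx, hxy⟩) ⟨hx, hxy⟩
    rw [dist_self, mul_zero] at this
    exact dist_le_zero.1 this
  · exact mul_le_mul_of_nonneg_left (measureReal_mono (sep_subset _ _) (measure_ne_top _ _))
      (by positivity)

theorem ball_upper (q : Sph d) {r : ℝ} (hr : 0 < r) : (unif d).real (ball q r) ≤ (6 * r) ^ d := by
  rcases le_total r (1 / 2) with h | h
  · have hl : 1 ≤ 1 / (2 * r) := by rw [le_div_iff₀ (by positivity)]; linarith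
    have h1 := pull_le q (ϱ := 1 / 2) (by norm_num) (by norm_num) hl univ
    have e : (1 + 1 / 2) / ((1 - 1 / 2) * (1 / (2 * r))) = 6 * r := by field_simp; norm_num
    rw [e, probReal_univ, mul_one] at h1
    refine (measureReal_mono ?_ (measure_ne_top _ _)).trans h1
    intro x hx
    refine ⟨?_, ⟨_, mem_sphere_zero_iff_norm.2
      (norm_proj_of_ge one_pos (one_le_dil (nrm q) (nrm x) hl))⟩, mem_univ _, rfl⟩
    rw [show 1 / 2 / (1 / (2 * r)) = r by field_simp]
    exact hx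
  · exact measureReal_le_one.trans (one_le_pow₀ (by linarith))

/-- The deterministic transfer of a colouring to a finer scale. -/
theorem transfer_det {ι : Type} [Fintype ι] (σ : ι ≃ ι) (p q : ι → Sph d) (ρ : ι → ℝ)
    (hρσ : ∀ i, ρ (σ i) = ρ i) (hqσ : ∀ i, q (σ i) = -q i)
    (hρ : ∀ i, 0 < ρ i ∧ ρ i ≤ 1 / 10)
    (hsep : ∀ i k, i ≠ k → 5 * ρ i + 5 * ρ k ≤ dist (p i) (p k))
    (hq : ∀ i, dist (q i) (p i) < ρ i) (H : Set (Sph d))
    (hH : ∀ x ∈ H, ∃ i, dist x (p i) < ρ i) (g : Sph d → Fin (d + 1)) {β l a : ℝ}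
    (hg : ∀ x y, x ∉ H → y ∉ H → dist x (-y) < β → g x ≠ g y)
    (hl : 1 ≤ l) (ha : ∀ i, a ≤ ρ i) (hβ : (l + 2) * a ≤ β) :
    ∃ g' : Sph d → Fin (d + 1), ∀ x y,
      (∀ i, x ∉ pull (q i) (3 * ρ i) l (H ∩ ball (p i) (ρ i))) →
      (∀ i, y ∉ pull (q i) (3 * ρ i) l (H ∩ ball (p i) (ρ i))) →
      dist x (-y) < a → g' x ≠ g' y := by
  classical
  let F : Eu d → Eu d := fun x => x + ∑ i, disp (3 * ρ i) l (q i : Eu d) x
  have Fneg : ∀ x, F (-x) = -F x := by
    intro x
    simp only [F]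
    rw [← Equiv.sum_comp σ, neg_add, ← Finset.sum_neg_distrib]
    congr 1
    refine Finset.sum_congr rfl fun i _ => ?_
    rw [hρσ, hqσ, ← disp_neg]; rfl
  have Floc : ∀ (i : ι) (x : Sph d), dist x (q i) < 4 * ρ i →
      F x = x + disp (3 * ρ i) l (q i : Eu d) x := by
    intro i x hx
    simp only [F]
    rw [Finset.sum_eq_single i]
    · intro k _ hk
      apply disp_far (by linarith [(hρ k).1]) hl
      rw [← dist_coe]
      have h1 := hsep k i hk
      have h2 := dist_triangle4 (p k) (q k) x (q i)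
      have h3 := dist_triangle (p k) (q i) (p i)
      have h4 := hq i
      have h5 := hq k
      rw [dist_comm (p k) (q k), dist_comm (q k) x] at h2
      linarith [(hρ k).1]
    · simp
  have Ffar : ∀ x : Sph d, (∀ i, 3 * ρ i ≤ dist x (q i)) → F x = x := by
    intro x hx
    simp only [F]
    rw [Finset.sum_eq_zero, add_zero]
    intro i _
    apply disp_far (by linarith [(hρ i).1]) hl
    rw [← dist_coe]; exact hx i
  have Fin1 : ∀ (i : ι) (x : Sph d), dist x (q i) ≤ 3 * ρ i → ∃ κ : ℝ, 1 ≤ κ ∧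
      κ * ‖(x : Eu d) - q i‖ ≤ 3 * ρ i ∧ F x = q i + κ • ((x : Eu d) - q i) ∧
      ((κ = l ∧ dist x (q i) < 3 * ρ i / l) ∨ κ * ‖(x : Eu d) - q i‖ = 3 * ρ i) := by
    intro i x hx
    have h0 := (hρ i).1
    rw [Floc i x (by linarith)]
    rcases lt_or_ge (dist x (q i)) (3 * ρ i / l) with h | h
    · refine ⟨l, hl, ?_, disp_near (by linarith) hl (by rw [← dist_coe]; exact h.le), Or.inl ⟨rfl, h⟩⟩
      rw [lt_div_iff₀ (by linarith), dist_coe] at h
      linarith
    · rw [dist_coe] at h hx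
      obtain ⟨κ, h1, h2, h3⟩ := disp_mid (by linarith) hl h hx
      exact ⟨κ, h1, h2.le, h3, Or.inr h2⟩
  have Fnorm : ∀ x : Sph d, 1 ≤ ‖F x‖ := by
    intro x
    by_cases h : ∀ i, 3 * ρ i ≤ dist x (q i)
    · rw [Ffar x h, nrm]
    · push Not at h
      obtain ⟨i, hi⟩ := h
      obtain ⟨κ, h1, -, h3, -⟩ := Fin1 i x hi.le
      rw [h3]; exact one_le_dil (nrm _) (nrm _) h1
  let ψ : Sph d → Sph d := fun x =>
    ⟨proj 1 (F x), mem_sphere_zero_iff_norm.2 (norm_proj_of_ge one_pos (Fnorm x))⟩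
  have ψH : ∀ x, (∀ i, x ∉ pull (q i) (3 * ρ i) l (H ∩ ball (p i) (ρ i))) → ψ x ∉ H := by
    intro x hx hψ
    obtain ⟨k, hk⟩ := hH _ hψ
    by_cases h : ∀ i, 3 * ρ i ≤ dist x (q i)
    · have e : ψ x = x := Subtype.ext (by
        simp only [ψ]; rw [Ffar x h, proj_of_le one_pos (nrm x).le])
      rw [e] at hk
      have h1 := h k
      have h2 := dist_triangle_right x (q k) (p k)
      linarith [hq k, (hρ k).1]
    · push Not at h
      obtain ⟨i, hi⟩ := h
      obtain ⟨κ, h1, h2, h3, h4⟩ := Fin1 i x hi.le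
      have h5 := dil_dist (nrm (q i)) (nrm x) h1 h2
      rw [← h3] at h5
      have e : ‖proj 1 (F x) - q i‖ = dist (ψ x) (q i) := by rw [dist_coe]
      rw [e, abs_le] at h5
      obtain ⟨r0, r1⟩ := hρ i
      have h6 : (3 * ρ i) ^ 2 / 2 ≤ ρ i := by nlinarith
      have hki : k = i := by
        by_contra hne
        have h7 := hsep k i hne
        have h8 := dist_triangle_left (p k) (q i) (ψ x)
        have h9 := dist_triangle (p k) (q i) (p i)
        linarith [hq i, (hρ k).1]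
      subst hki
      rcases h4 with ⟨rfl, h4⟩ | h4
      · exact hx k ⟨h4, ψ x, ⟨hψ, hk⟩, by simp only [ψ]; rw [h3]⟩
      · have h8 := dist_triangle_right (ψ x) (q k) (p k)
        linarith [hq k]
  have ψlip : ∀ x y : Sph d, dist x y < a → dist (ψ x) (ψ y) < β := by
    intro x y hxy
    have h0 : 0 ≤ dist x y := dist_nonneg
    have h1 : ‖F x - F y‖ ≤ (l + 2) * dist x y := by
      by_cases h : ∃ i, dist x (q i) < 3 * ρ i ∨ dist y (q i) < 3 * ρ i
      · obtain ⟨i, hi⟩ := h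
        have h2 := dist_triangle x y (q i)
        have h3 := dist_triangle_left y (q i) x
        have h4 := ha i
        have h5 := (hρ i).1
        rw [Floc i x (by rcases hi with h | h <;> linarith),
          Floc i y (by rcases hi with h | h <;> linarith), dist_coe]
        exact disp_lip (by linarith) hl _ _ _
      · push Not at h
        rw [Ffar x fun i => (h i).1, Ffar y fun i => (h i).2, ← dist_coe]
        nlinarith
    rw [dist_coe]
    refine (proj_lip one_pos _ _).trans_lt (h1.trans_lt ?_)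
    nlinarith
  refine ⟨fun x => g (ψ x), fun x y hx hy hxy => hg _ _ (ψH x hx) (ψH y hy) ?_⟩
  have e : -ψ y = ψ (-y) := Subtype.ext (by
    simp only [ψ, coe_neg_sphere]; rw [Fneg, proj_neg])
  rw [e]
  exact ψlip _ _ hxy

end Pool.Agent.MP_4a5f01_pr

end

-- part MP_4a5f01_pr.Prob
section

set_option autoImplicit false

namespace Pool.Agent.MP_4a5f01_pr

open MeasureTheory Metric Set Filter Topology

theorem second_moment {Ω ι : Type*} [MeasurableSpace Ω] (P : Measure Ω) [IsProbabilityMeasure P]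
    (Q : Finset ι) (E : ι → Set Ω) (hE : ∀ l, MeasurableSet (E l))
    (h : ∀ l ∈ Q, ∀ k ∈ Q, l ≠ k → P.real (E l ∩ E k) ≤ P.real (E l) * P.real (E k))
    (hm : 0 < ∑ l ∈ Q, P.real (E l)) :
    P.real {ω | ∀ l ∈ Q, ω ∉ E l} ≤ 1 / ∑ l ∈ Q, P.real (E l) := by
  classical
  set m := ∑ l ∈ Q, P.real (E l) with hmdef
  let I : Set Ω → Ω → ℝ := fun s => s.indicator 1
  have hI : ∀ s, MeasurableSet s → Integrable (I s) P := fun s hs =>
    (integrable_const (1 : ℝ)).indicator hs
  have e : ∀ ω, (∑ l ∈ Q, I (E l) ω - m) ^ 2 =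
      ∑ l ∈ Q, ∑ k ∈ Q, I (E l ∩ E k) ω - 2 * m * ∑ l ∈ Q, I (E l) ω + m ^ 2 := by
    intro ω
    have : ∑ l ∈ Q, ∑ k ∈ Q, I (E l ∩ E k) ω = (∑ l ∈ Q, I (E l) ω) ^ 2 := by
      rw [sq, Finset.sum_mul_sum]
      refine Finset.sum_congr rfl fun l _ => Finset.sum_congr rfl fun k _ => ?_
      simp only [I]
      rw [inter_indicator_one]; rfl
    rw [this]; ring
  have i1 : Integrable (fun ω => ∑ l ∈ Q, I (E l) ω) P :=
    integrable_finsetSum _ fun l _ => hI _ (hE l)
  have i2 : Integrable (fun ω => ∑ l ∈ Q, ∑ k ∈ Q, I (E l ∩ E k) ω) P :=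
    integrable_finsetSum _ fun l _ => integrable_finsetSum _ fun k _ => hI _ ((hE l).inter (hE k))
  have i3 : Integrable (fun ω => ∑ l ∈ Q, ∑ k ∈ Q, I (E l ∩ E k) ω -
      2 * m * ∑ l ∈ Q, I (E l) ω) P := i2.sub (i1.const_mul _)
  have h1 : ∫ ω, (∑ l ∈ Q, I (E l) ω - m) ^ 2 ∂P ≤ m := by
    simp only [e]
    rw [integral_add i3 (integrable_const _), integral_sub i2 (i1.const_mul _), integral_const_mul,
      integral_finsetSum _ fun l _ => hI _ (hE l),
      integral_finsetSum _ fun l _ => integrable_finsetSum _ fun k _ => hI _ ((hE l).inter (hE k))]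
    have a1 : ∑ l ∈ Q, ∫ ω, I (E l) ω ∂P = m :=
      Finset.sum_congr rfl fun l _ => integral_indicator_one (hE l)
    have a2 : ∑ l ∈ Q, ∫ ω, ∑ k ∈ Q, I (E l ∩ E k) ω ∂P ≤ m + m * m := by
      rw [hmdef, Finset.sum_mul_sum, ← Finset.sum_add_distrib]
      refine Finset.sum_le_sum fun l hl => ?_
      rw [integral_finsetSum _ fun k _ => hI _ ((hE l).inter (hE k))]
      have : P.real (E l) = ∑ k ∈ Q, if l = k then P.real (E l) else 0 := by simp [hl]
      conv_rhs => rw [this]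
      rw [← this, show P.real (E l) + ∑ k ∈ Q, P.real (E l) * P.real (E k) =
        ∑ k ∈ Q, ((if l = k then P.real (E l) else 0) + P.real (E l) * P.real (E k)) by
          rw [Finset.sum_add_distrib, ← this]]
      refine Finset.sum_le_sum fun k hk => ?_
      rw [show ∫ ω, I (E l ∩ E k) ω ∂P = P.real (E l ∩ E k) from
        integral_indicator_one ((hE l).inter (hE k))]
      split_ifs with hlk
      · subst hlk
        rw [inter_self]
        exact le_add_of_nonneg_right (by positivity)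
      · rw [zero_add]; exact h l hl k hk hlk
    rw [a1]
    simp only [integral_const, probReal_univ, smul_eq_mul]
    nlinarith
  have h2 := mul_meas_ge_le_integral_of_nonneg (μ := P)
    (f := fun ω => (∑ l ∈ Q, I (E l) ω - m) ^ 2) (Eventually.of_forall fun ω => sq_nonneg _)
    (by simp only [e]; exact i3.add (integrable_const _)) (m ^ 2)
  have h3 : P.real {ω | ∀ l ∈ Q, ω ∉ E l} ≤
      P.real {ω | m ^ 2 ≤ (∑ l ∈ Q, I (E l) ω - m) ^ 2} := by
    refine measureReal_mono (fun ω hω => ?_) (measure_ne_top _ _)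
    have : ∑ l ∈ Q, I (E l) ω = 0 :=
      Finset.sum_eq_zero fun l hl => indicator_of_notMem (hω l hl) _
    simp [this]
  rw [le_div_iff₀ hm]
  have h4 : m * (m * P.real {ω | ∀ l ∈ Q, ω ∉ E l}) ≤ m * 1 := by nlinarith
  have := le_of_mul_le_mul_left h4 hm
  linarith

section Pi

variable {Ω : Type*} [MeasurableSpace Ω] (μ : Measure Ω) [IsProbabilityMeasure μ] (n : ℕ)

omit [MeasurableSpace Ω] in
theorem avoid_eq (W : Set Ω) :
    {X : Fin n → Ω | ∀ i, X i ∉ W} = Set.pi univ (fun _ => Wᶜ) := by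
  ext X; simp

theorem avoid_meas {W : Set Ω} (hW : MeasurableSet W) :
    MeasurableSet {X : Fin n → Ω | ∀ i, X i ∉ W} := by
  rw [avoid_eq]; exact MeasurableSet.univ_pi fun _ => hW.compl

theorem pi_avoid {W : Set Ω} (hW : MeasurableSet W) :
    (Measure.pi fun _ : Fin n => μ).real {X | ∀ i, X i ∉ W} = (1 - μ.real W) ^ n := by
  rw [avoid_eq, measureReal_def, Measure.pi_pi, ← probReal_compl_eq_one_sub hW]
  simp [measureReal_def]

theorem all_hit {ι : Type*} (Q : Finset ι) (hQ : 0 < Q.card) (W : ι → Set Ω)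
    (hW : ∀ l, MeasurableSet (W l)) (hd : ∀ l ∈ Q, ∀ k ∈ Q, l ≠ k → Disjoint (W l) (W k))
    {w : ℝ} (hw1 : w < 1) (hw : ∀ l ∈ Q, μ.real (W l) ≤ w) :
    (Measure.pi fun _ : Fin n => μ).real {X | ∀ l ∈ Q, ∃ i, X i ∈ W l} ≤
      1 / (Q.card * (1 - w) ^ n) := by
  have h0 : 0 < 1 - w := by linarith
  have h1 : (Q.card : ℝ) * (1 - w) ^ n ≤
      ∑ l ∈ Q, (Measure.pi fun _ : Fin n => μ).real {X | ∀ i, X i ∉ W l} := by
    rw [← nsmul_eq_mul]
    refine Finset.card_nsmul_le_sum _ _ _ fun l hl => ?_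
    rw [pi_avoid μ n (hW l)]
    have := hw l hl
    gcongr
  have h2 : (0 : ℝ) < Q.card * (1 - w) ^ n := by positivity
  have h3 := second_moment (Measure.pi fun _ : Fin n => μ) Q (fun l => {X | ∀ i, X i ∉ W l})
    (fun l => avoid_meas n (hW l)) (by
      intro l hl k hk hlk
      have e : {X : Fin n → Ω | ∀ i, X i ∉ W l} ∩ {X | ∀ i, X i ∉ W k} =
          {X | ∀ i, X i ∉ W l ∪ W k} := by
        ext X; simp [forall_and]
      rw [e, pi_avoid μ n (hW l), pi_avoid μ n (hW k), pi_avoid μ n ((hW l).union (hW k)),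
        ← mul_pow]
      have a1 : μ.real (W l ∪ W k) ≤ 1 := measureReal_le_one
      have a2 := measureReal_union (μ := μ) (hd l hl k hk hlk) (hW k)
      have a3 : 0 ≤ μ.real (W l) * μ.real (W k) := by positivity
      apply pow_le_pow_left₀ (by linarith)
      rw [a2]; nlinarith) (h2.trans_le h1)
  refine le_trans (le_of_eq ?_) (h3.trans (one_div_le_one_div_of_le h2 h1))
  congr 1
  ext X; simp

end Pi

/-- the scale `(ln n / n)^(1/d)` -/
noncomputable def th (d n : ℕ) : ℝ := (Real.log n / n) ^ (1 / (d : ℝ))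

theorem log_pos' {n : ℕ} (hn : 2 ≤ n) : 0 < Real.log n :=
  Real.log_pos (by exact_mod_cast hn)

theorem th_pos (d : ℕ) {n : ℕ} (hn : 2 ≤ n) : 0 < th d n := by
  have := log_pos' hn
  have : (0 : ℝ) < n := by exact_mod_cast (by omega : 0 < n)
  unfold th; positivity

theorem th_pow {d : ℕ} (hd : 1 ≤ d) (n : ℕ) : th d n ^ d = Real.log n / n := by
  have : 0 ≤ Real.log n / n := div_nonneg (Real.log_natCast_nonneg n) (Nat.cast_nonneg n)
  unfold th
  rw [one_div, Real.rpow_inv_natCast_pow this (by omega)]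

theorem log_div_tendsto : Tendsto (fun n : ℕ => Real.log n / n) atTop (𝓝 0) :=
  (Real.isLittleO_log_id_atTop.tendsto_div_nhds_zero).comp tendsto_natCast_atTop_atTop

theorem th_tendsto {d : ℕ} (hd : 1 ≤ d) : Tendsto (th d) atTop (𝓝 0) := by
  have h : (0 : ℝ) < 1 / d := by
    have : (0 : ℝ) < d := by exact_mod_cast hd
    positivity
  have := log_div_tendsto.rpow_const (p := 1 / (d : ℝ)) (Or.inr h.le)
  rwa [Real.zero_rpow h.ne'] at this

theorem th_small {d : ℕ} (hd : 1 ≤ d) (t : ℝ) {e : ℝ} (he : 0 < e) :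
    ∀ᶠ n in atTop, t * th d n < e := by
  have := (th_tendsto hd).const_mul t
  rw [mul_zero] at this
  exact this.eventually (gt_mem_nhds he)

theorem asym {b κ : ℝ} (hb : 0 < b) (hκ0 : 0 < κ) (hκ : κ < 1) :
    Tendsto (fun n : ℕ => 1 / (b * (n / Real.log n) * (1 - κ * (Real.log n / n)) ^ n))
      atTop (𝓝 0) := by
  obtain ⟨ε, hε0, hε1, hε⟩ : ∃ ε : ℝ, 0 < ε ∧ ε ≤ 1 / 2 ∧ (1 + 2 * ε) * κ < 1 :=
    ⟨(1 - κ) / 2, by linarith, by linarith, by nlinarith⟩
  set γ := 1 - (1 + 2 * ε) * κ with hγ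
  have hγ0 : 0 < γ := by linarith
  have t1 : Tendsto (fun n : ℕ => b⁻¹ * (Real.log n / (n : ℝ) ^ γ)) atTop (𝓝 (b⁻¹ * 0)) :=
    (((isLittleO_log_rpow_atTop hγ0).tendsto_div_nhds_zero).comp
      tendsto_natCast_atTop_atTop).const_mul _
  rw [mul_zero] at t1
  have t2 : ∀ᶠ n : ℕ in atTop, κ * (Real.log n / n) < ε := by
    have := log_div_tendsto.const_mul κ
    rw [mul_zero] at this
    exact this.eventually (gt_mem_nhds hε0)
  refine squeeze_zero' ?_ ?_ t1
  · filter_upwards [t2, eventually_ge_atTop 2] with n h hn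
    have := log_pos' hn
    have : 0 < 1 - κ * (Real.log n / n) := by linarith
    positivity
  · filter_upwards [t2, eventually_ge_atTop 2] with n h hn
    have hl := log_pos' hn
    have hn0 : (0 : ℝ) < n := by exact_mod_cast (by omega : 0 < n)
    set w := κ * (Real.log n / n) with hw
    have hw0 : 0 ≤ w := by positivity
    have h1 : Real.exp (-((1 + 2 * ε) * w)) ≤ 1 - w := by
      rw [Real.exp_neg, inv_le_comm₀ (Real.exp_pos _) (by linarith)]
      refine le_trans ?_ (Real.add_one_le_exp _)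
      rw [inv_le_iff_one_le_mul₀ (by linarith)]
      have : 0 ≤ w * (2 * ε - (1 + 2 * ε) * w) := mul_nonneg hw0 (by nlinarith)
      nlinarith
    have h2 : (n : ℝ) ^ γ / n ≤ (1 - w) ^ n := by
      refine le_trans (le_of_eq ?_) (pow_le_pow_left₀ (Real.exp_pos _).le h1 n)
      rw [← Real.exp_nat_mul, ← Real.rpow_sub_one hn0.ne', Real.rpow_def_of_pos hn0]
      congr 1
      simp only [hγ, hw]
      field_simp
      ring
    have h3 : 0 < (n : ℝ) ^ γ := by positivity
    calc 1 / (b * (n / Real.log n) * (1 - w) ^ n) ≤ 1 / (b * (n / Real.log n) * ((n : ℝ) ^ γ / n)) := by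
          apply one_div_le_one_div_of_le (by positivity)
          gcongr
      _ = _ := by field_simp

end Pool.Agent.MP_4a5f01_pr

end

-- part MP_4a5f01_pr.Transfer
section

set_option autoImplicit false

namespace Pool.Agent.MP_4a5f01_pr

open MeasureTheory Metric Set Filter Topology

variable {d : ℕ}

noncomputable abbrev Pn (d n : ℕ) : Measure (Fin n → Sph d) := Measure.pi fun _ : Fin n => unif d

/-- colourability at chordal scale `a` -/
def Col {n : ℕ} (a : ℝ) (X : Fin n → Sph d) : Prop :=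
  ∃ col : Fin n → Fin (d + 1), ∀ i k, i ≠ k → dist (X i) (-X k) < a → col i ≠ col k

/-- a colouring of the sphere minus finitely many small well separated holes -/
def Tmpl (d : ℕ) (β δ v : ℝ) : Prop :=
  ∃ (C : Finset (Sph d)) (ρ : Sph d → ℝ) (H : Set (Sph d)) (g : Sph d → Fin (d + 1)),
    (∀ c ∈ C, 0 < ρ c ∧ ρ c ≤ δ) ∧
    (∀ c ∈ C, ∀ c' ∈ C, c ≠ c' → 5 * ρ c + 5 * ρ c' ≤ dist c c' ∧ 5 * ρ c + 5 * ρ c' ≤ dist c (-c')) ∧
    (∀ x ∈ H, ∃ c ∈ C, dist x c < ρ c ∨ dist x (-c) < ρ c) ∧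
    (∀ c ∈ C, (unif d).real (H ∩ ball c (ρ c)) + (unif d).real (H ∩ ball (-c) (ρ c)) ≤ v) ∧
    ∀ x y, x ∉ H → y ∉ H → dist x (-y) < β → g x ≠ g y

theorem one_hole (hd : 1 ≤ d) (c : Sph d) {ρ K u v : ℝ} (hρ : 0 < ρ) (hρ1 : ρ ≤ 1 / 10)
    (hK : (1 + 3 * ρ) / (1 - 3 * ρ) ≤ K) (hu : 0 < u) (hv : 0 < v) (hκ : v * (K / u) ^ d < 1)
    (A₁ A₂ : Set (Sph d)) (hA : (unif d).real A₁ + (unif d).real A₂ ≤ v) :
    Tendsto (fun n => (Pn d n).real {X | ¬ ∃ q : Sph d, dist q c < ρ ∧ ∀ i,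
      X i ∉ pull q (3 * ρ) (u / th d n) A₁ ∧ X i ∉ pull (-q) (3 * ρ) (u / th d n) A₂})
      atTop (𝓝 0) := by
  have h3 : 0 < 1 - 3 * ρ := by linarith
  have hK0 : 0 < K := lt_of_lt_of_le (by positivity) hK
  obtain ⟨c0, hc0, hlow⟩ := ball_lower (d := d)
  have hB : 0 < (unif d).real (ball c ρ) :=
    lt_of_lt_of_le (by positivity) (hlow c ρ hρ (by linarith))
  set κ := v * (K / u) ^ d with hκdef
  have hκ0 : 0 < κ := by positivity
  set b := (unif d).real (ball c ρ) * (u / (36 * ρ)) ^ d with hb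
  have hb0 : 0 < b := by positivity
  refine squeeze_zero' (Eventually.of_forall fun n => measureReal_nonneg) ?_ (asym hb0 hκ0 hκ)
  have t2 : ∀ᶠ n : ℕ in atTop, κ * (Real.log n / n) < 1 := by
    have := log_div_tendsto.const_mul κ
    rw [mul_zero] at this
    exact this.eventually (gt_mem_nhds one_pos)
  filter_upwards [t2, eventually_ge_atTop 2, th_small hd 1 hu] with n hw hn hθu
  have hθ := th_pos d hn
  have hlog := log_pos' hn
  have hn0 : (0 : ℝ) < n := by exact_mod_cast (by omega : 0 < n)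
  set l := u / th d n with hl
  have hl1 : 1 ≤ l := by rw [hl, le_div_iff₀ hθ]; linarith
  have hl0 : 0 < l := by linarith
  set r := 3 * ρ / l with hr
  have hr0 : 0 < r := by positivity
  have hr1 : r ≤ 3 * ρ := div_le_self (by linarith) hl1
  obtain ⟨Q, hQA, hQs, hQc⟩ := exists_net (ball c ρ) (s := 2 * r) (by positivity)
  have hcard : b * (n / Real.log n) ≤ Q.card := by
    have h1 : (unif d).real (ball c ρ) ≤ Q.card * (6 * (2 * r)) ^ d := by
      calc _ ≤ (unif d).real (⋃ z ∈ Q, ball z (2 * r)) := by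
            refine measureReal_mono (fun y hy => ?_) (measure_ne_top _ _)
            obtain ⟨z, hz, h⟩ := hQc y hy
            exact mem_biUnion hz h
        _ ≤ ∑ z ∈ Q, (unif d).real (ball z (2 * r)) := measureReal_biUnion_finset_le _ _
        _ ≤ ∑ z ∈ Q, (6 * (2 * r)) ^ d :=
            Finset.sum_le_sum fun z _ => ball_upper z (by positivity)
        _ = _ := by simp
    have h2 : (u / (36 * ρ)) ^ d * (n / Real.log n) * (6 * (2 * r)) ^ d = 1 := by
      rw [← inv_div (Real.log n), ← th_pow hd, ← inv_pow, ← mul_pow, ← mul_pow]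
      rw [show u / (36 * ρ) * (th d n)⁻¹ * (6 * (2 * r)) = 1 by
        simp only [hr, hl]; field_simp; norm_num, one_pow]
    have h4 : 0 < (6 * (2 * r)) ^ d := by positivity
    refine le_of_mul_le_mul_right ?_ h4
    rw [hb, mul_assoc, mul_assoc, ← mul_assoc ((u / (36 * ρ)) ^ d), h2, mul_one]
    exact h1
  have hcard0 : 0 < b * (n / Real.log n) := by positivity
  let W : Sph d → Set (Sph d) := fun q =>
    (toMeasurable (unif d) (pull q (3 * ρ) l A₁) ∩ ball q r) ∪
      (toMeasurable (unif d) (pull (-q) (3 * ρ) l A₂) ∩ ball (-q) r)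
  have hWm : ∀ q, MeasurableSet (W q) := fun q =>
    ((measurableSet_toMeasurable _ _).inter measurableSet_ball).union
      ((measurableSet_toMeasurable _ _).inter measurableSet_ball)
  have hWd : ∀ q ∈ Q, ∀ q' ∈ Q, q ≠ q' → Disjoint (W q) (W q') := by
    intro q hq q' hq' hne
    have a1 := hQs q hq q' hq' hne
    have a2 : 2 * r ≤ dist q (-q') := by
      have b1 := dist_neg_self q'
      have b2 := dist_triangle4 q' c q (-q')
      have b3 := hQA q hq
      have b4 := hQA q' hq'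
      rw [mem_ball] at b3 b4
      rw [dist_comm c q] at b2
      linarith
    simp only [W, disjoint_union_left, disjoint_union_right]
    refine ⟨⟨?_, ?_⟩, ?_, ?_⟩ <;>
      refine Disjoint.mono inter_subset_right inter_subset_right (ball_disjoint_ball ?_)
    · linarith
    · rw [dist_neg_comm]; linarith
    · linarith
    · rw [dist_neg_neg']; linarith
  have hWw : ∀ q ∈ Q, (unif d).real (W q) ≤ κ * (Real.log n / n) := by
    intro q _
    have a1 : ∀ (z : Sph d) (A : Set (Sph d)),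
        (unif d).real (toMeasurable (unif d) (pull z (3 * ρ) l A) ∩ ball z r) ≤
          (K / l) ^ d * (unif d).real A := by
      intro z A
      refine (measureReal_mono inter_subset_left (measure_ne_top _ _)).trans ?_
      rw [measureReal_def, measure_toMeasurable, ← measureReal_def]
      refine (pull_le z (by linarith) (by linarith) hl1 A).trans ?_
      rw [← div_div]
      gcongr
    refine (measureReal_union_le _ _).trans ((add_le_add (a1 _ _) (a1 _ _)).trans ?_)
    rw [← mul_add, ← th_pow hd, hκdef, mul_assoc, ← mul_pow, mul_comm v,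
      show K / u * th d n = K / l by simp only [hl]; field_simp]
    gcongr
  have key := all_hit (unif d) n Q (by exact_mod_cast hcard0.trans_le hcard) W hWm hWd hw hWw
  refine (measureReal_mono ?_ (measure_ne_top _ _)).trans (key.trans ?_)
  · intro X hX q hq
    by_contra hc
    push Not at hc
    refine hX ⟨q, hQA q hq, fun i => ⟨fun h => hc i (Or.inl ⟨subset_toMeasurable _ _ h, h.1⟩),
      fun h => hc i (Or.inr ⟨subset_toMeasurable _ _ h, h.1⟩)⟩⟩
  · have : 0 < 1 - κ * (Real.log n / n) := by linarith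
    apply one_div_le_one_div_of_le (by positivity)
    gcongr

theorem transfer (hd : 1 ≤ d) {β δ v s : ℝ} (hT : Tmpl d β δ v) (hβ : 0 < β) (hδ : δ ≤ 1 / 10)
    (hv : 0 < v) (hs : 0 < s) (h : v * ((1 + 3 * δ) / (1 - 3 * δ) * s / β) ^ d < 1) :
    Tendsto (fun n => (Pn d n).real {X | ¬ Col (s * th d n) X}) atTop (𝓝 0) := by
  classical
  obtain ⟨C, ρ, H, g, hρ, hsep, hH, hvol, hg⟩ := hT
  set K := (1 + 3 * δ) / (1 - 3 * δ) with hK
  obtain ⟨e, he0, heβ, he⟩ : ∃ e : ℝ, 0 < e ∧ e < β ∧ v * (K / ((β - e) / s)) ^ d < 1 := by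
    have hc : ContinuousAt (fun e : ℝ => v * (K / ((β - e) / s)) ^ d) 0 := by
      refine continuousAt_const.mul (ContinuousAt.pow (continuousAt_const.div (by fun_prop) ?_) d)
      simp [hβ.ne', hs.ne']
    have h1 : ∀ᶠ e in 𝓝 (0 : ℝ), v * (K / ((β - e) / s)) ^ d < 1 :=
      hc.eventually (gt_mem_nhds (by
        beta_reduce
        rw [sub_zero, show K / (β / s) = K * s / β by field_simp]; exact h))
    have h2 : ∀ᶠ e in 𝓝 (0 : ℝ), e < β := gt_mem_nhds hβ
    obtain ⟨e, ⟨h3, h4⟩, h5⟩ := (((h1.and h2).filter_mono nhdsWithin_le_nhds).and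
      (self_mem_nhdsWithin (s := Ioi (0 : ℝ)))).exists
    exact ⟨e, h5, h4, h3⟩
  set u := (β - e) / s with hu
  have hu0 : 0 < u := div_pos (by linarith) hs
  have t1 := tendsto_finsetSum C.attach fun (c : C) _ =>
    one_hole hd c.1 (hρ c c.2).1 ((hρ c c.2).2.trans hδ) (K := K) (by
      have := hρ c c.2
      rw [hK]
      gcongr
      · linarith [this.1, this.2]
      · linarith
      · exact this.2
      · exact this.2) hu0 hv he _ _ (hvol c c.2)
  rw [Finset.sum_const_zero] at t1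
  refine squeeze_zero' (Eventually.of_forall fun n => measureReal_nonneg) ?_ t1
  have t2 : ∀ᶠ n in atTop, ∀ c ∈ C, s * th d n < ρ c :=
    (eventually_all_finset C).2 fun c hc => th_small hd s (hρ c hc).1
  filter_upwards [t2, eventually_ge_atTop 2, th_small hd 1 hu0, th_small hd (2 * s) he0]
    with n h1 hn h2 h3
  have hθ := th_pos d hn
  refine (measureReal_mono ?_ (measure_ne_top _ _)).trans (measureReal_biUnion_finset_le _ _)
  intro X hX
  by_contra hc
  have hc' : ∀ c : C, ∃ q : Sph d, dist q c < ρ c ∧ ∀ i,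
      X i ∉ pull q (3 * ρ c) (u / th d n) (H ∩ ball (c : Sph d) (ρ c)) ∧
        X i ∉ pull (-q) (3 * ρ c) (u / th d n) (H ∩ ball (-c : Sph d) (ρ c)) := by
    intro c
    by_contra h'
    exact hc (mem_biUnion (Finset.mem_attach _ c) h')
  choose q hq1 hq2 using hc'
  let sg : Bool → Sph d → Sph d := fun b x => if b then x else -x
  let σ : C × Bool ≃ C × Bool := Equiv.prodCongr (Equiv.refl _) Equiv.boolNot
  obtain ⟨g', hg'⟩ := transfer_det σ (fun i => sg i.2 i.1) (fun i => sg i.2 (q i.1))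
    (fun i => ρ i.1) (fun i => rfl) (by rintro ⟨c, _ | _⟩ <;> simp [σ, sg])
    (fun i => ⟨(hρ _ i.1.2).1, (hρ _ i.1.2).2.trans hδ⟩) (by
      rintro ⟨c, b⟩ ⟨c', b'⟩ hne
      by_cases hcc : c = c'
      · subst hcc
        have := (hρ c c.2).2
        cases b <;> cases b' <;> simp only [sg, if_true, Bool.false_eq_true, if_false]
        · exact absurd rfl hne
        · rw [dist_comm, dist_neg_self]; linarith
        · rw [dist_neg_self]; linarith
        · exact absurd rfl hne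
      · have := hsep c c.2 c' c'.2 fun h => hcc (Subtype.ext h)
        cases b <;> cases b' <;> simp only [sg, if_true, Bool.false_eq_true, if_false]
        · rw [dist_neg_neg']; exact this.1
        · rw [dist_neg_comm]; exact this.2
        · exact this.2
        · exact this.1) (by
      rintro ⟨c, _ | _⟩ <;> simp only [sg, if_true, Bool.false_eq_true, if_false]
      · rw [dist_neg_neg']; exact hq1 c
      · exact hq1 c) H (by
      intro x hx
      obtain ⟨c, hc, h | h⟩ := hH x hx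
      · exact ⟨(⟨c, hc⟩, true), h⟩
      · exact ⟨(⟨c, hc⟩, false), h⟩) g hg (l := u / th d n) (a := s * th d n)
    (by rw [le_div_iff₀ hθ]; linarith) (fun i => (h1 _ i.1.2).le) (by
      have : u / th d n * (s * th d n) = β - e := by rw [hu]; field_simp
      nlinarith)
  refine hX ⟨fun i => g' (X i), fun i k _ hik => hg' _ _ ?_ ?_ hik⟩
  · rintro ⟨c, _ | _⟩
    · exact (hq2 c i).2
    · exact (hq2 c i).1
  · rintro ⟨c, _ | _⟩
    · exact (hq2 c k).2
    · exact (hq2 c k).1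

/-- an explicit template with one pair of holes -/
theorem tmpl_explicit (hd : 1 ≤ d) {β : ℝ} (hβ : 0 < β) :
    Tmpl d β (3 * d * β) (2 * (18 * d * β) ^ d) := by
  classical
  have hd' : (1 : ℝ) ≤ d := by exact_mod_cast hd
  let p : Sph d := ⟨EuclideanSpace.single (Fin.last d) 1, by simp⟩
  let g : Sph d → Fin (d + 1) := fun x =>
    if h : ∃ j : Fin d, β / 2 ≤ (x : Eu d) j.castSucc then h.choose.castSucc else Fin.last d
  have hρ : 0 < 3 * d * β := by positivity
  refine ⟨{p}, fun _ => 3 * d * β, ball p (3 * d * β) ∪ ball (-p) (3 * d * β), g, ?_, ?_, ?_, ?_, ?_⟩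
  · intro c _; exact ⟨hρ, le_rfl⟩
  · intro c hc c' hc' hne
    exact absurd ((Finset.mem_singleton.1 hc).trans (Finset.mem_singleton.1 hc').symm) hne
  · intro x hx; exact ⟨p, by simp, hx⟩
  · intro c _
    have a1 : ∀ z : Sph d, (unif d).real ((ball p (3 * d * β) ∪ ball (-p) (3 * d * β)) ∩
        ball z (3 * d * β)) ≤ (18 * d * β) ^ d := fun z =>
      (measureReal_mono inter_subset_right (measure_ne_top _ _)).trans
        ((ball_upper z hρ).trans (le_of_eq (by congr 1; ring)))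
    linarith [a1 c, a1 (-c)]
  · intro x y hx _ hxy hgxy
    rw [dist_neg_coe] at hxy
    have hco : ∀ j, |(x : Eu d) j + (y : Eu d) j| < β := fun j =>
      lt_of_le_of_lt (PiLp.norm_apply_le ((x : Eu d) + (y : Eu d)) j) hxy
    by_cases h1 : ∃ j : Fin d, β / 2 ≤ (x : Eu d) j.castSucc <;>
      by_cases h2 : ∃ j : Fin d, β / 2 ≤ (y : Eu d) j.castSucc <;>
      simp only [g, h1, h2, dif_pos, dif_neg, not_false_eq_true] at hgxy
    · have a1 := h1.choose_spec
      have a2 := h2.choose_spec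
      rw [← hgxy] at a2
      have := (abs_lt.1 (hco h1.choose.castSucc)).2
      linarith
    · exact absurd hgxy (Fin.castSucc_ne_last _)
    · exact absurd hgxy.symm (Fin.castSucc_ne_last _)
    · push Not at h1 h2
      have a1 : ∀ j : Fin d, (x : Eu d) j.castSucc ^ 2 ≤ 4 * β ^ 2 := fun j => by
        have := (abs_lt.1 (hco j.castSucc)).1
        nlinarith [h1 j, h2 j]
      have a2 : ∑ j : Fin d, (x : Eu d) j.castSucc ^ 2 ≤ d * (4 * β ^ 2) := by
        refine (Finset.sum_le_sum fun j _ => a1 j).trans (le_of_eq ?_)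
        simp
      have a3 := EuclideanSpace.real_norm_sq_eq (x : Eu d)
      rw [nrm, Fin.sum_univ_castSucc] at a3
      have a4 : inner ℝ (x : Eu d) (p : Eu d) = (x : Eu d) (Fin.last d) := by
        simp [p, EuclideanSpace.inner_single_right]
      simp only [mem_union, mem_ball, not_or, not_lt] at hx
      obtain ⟨b1, b2⟩ := hx
      rw [dist_coe] at b1
      rw [dist_neg_coe] at b2
      have c1 := norm_sub_sq_real (x : Eu d) (p : Eu d)
      have c2 := norm_add_sq_real (x : Eu d) (p : Eu d)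
      rw [nrm, nrm, a4] at c1 c2
      have c3 := pow_le_pow_left₀ hρ.le b1 2
      have c4 := pow_le_pow_left₀ hρ.le b2 2
      have c5 : 0 ≤ ∑ j : Fin d, (x : Eu d) j.castSucc ^ 2 := by positivity
      have c6 : 8 * d * β ^ 2 < (3 * d * β) ^ 2 := by
        have : 0 < β ^ 2 := by positivity
        nlinarith [mul_pos this (show (0 : ℝ) < d by linarith)]
      set t := (x : Eu d) (Fin.last d)
      rcases le_total 0 t with h | h
      · have : t ≤ 1 := by nlinarith
        nlinarith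
      · have : -1 ≤ t := by nlinarith
        nlinarith

end Pool.Agent.MP_4a5f01_pr

end

-- part MP_4a5f01_pr.Holes
section

set_option autoImplicit false

namespace Pool.Agent.MP_4a5f01_pr

open MeasureTheory Metric Set Filter Topology

variable {d : ℕ}

def Near (r : ℝ) (x y : Sph d) : Prop := dist x y ≤ r ∨ dist x (-y) ≤ r

/-- a large empty union of net balls near some antipodal pair -/
def Bad {n : ℕ} (Z : Finset (Sph d)) (s R v : ℝ) (X : Fin n → Sph d) : Prop :=
  ∃ z ∈ Z, ∃ A ⊆ Z, (∀ a ∈ A, Near R a z) ∧ v < (unif d).real (⋃ a ∈ A, ball a s) ∧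
    ∀ i, X i ∉ ⋃ a ∈ A, ball a s

theorem bad_prob {n N : ℕ} {Z : Finset (Sph d)} {s R v : ℝ} (hs : 0 < s) (hR : 0 ≤ R)
    (hZ : Sep s Z) (hN : ((2 * R + s) / s) ^ (d + 1) ≤ N) :
    (Pn d n).real {X | Bad Z s R v X} ≤ Z.card * (2 ^ (2 * N) * Real.exp (-(n * v))) := by
  classical
  have h1 : {X : Fin n → Sph d | Bad Z s R v X} ⊆ ⋃ z ∈ Z,
      ⋃ A ∈ (Z.filter fun a => Near R a z).powerset.filter
        (fun A => v < (unif d).real (⋃ a ∈ A, ball a s)), {X | ∀ i, X i ∉ ⋃ a ∈ A, ball a s} := by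
    rintro X ⟨z, hz, A, hA, h1, h2, h3⟩
    refine mem_biUnion hz (mem_biUnion (x := A) ?_ h3)
    simp only [Finset.coe_filter, Finset.mem_powerset, mem_ofPred_eq]
    exact ⟨fun a ha => Finset.mem_filter.2 ⟨hA ha, h1 a ha⟩, h2⟩
  refine (measureReal_mono h1 (measure_ne_top _ _)).trans
    ((measureReal_biUnion_finset_le _ _).trans ?_)
  rw [← nsmul_eq_mul]
  refine Finset.sum_le_card_nsmul _ _ _ fun z _ => (measureReal_biUnion_finset_le _ _).trans ?_
  have hc : ∀ w : Sph d, (Z.filter fun a => dist a w ≤ R).card ≤ N := fun w => by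
    have := pack_ball hs hR (Z := Z.filter fun a => dist a w ≤ R)
      (fun x hx y hy => hZ x (Finset.mem_filter.1 hx).1 y (Finset.mem_filter.1 hy).1) w
      fun a ha => (Finset.mem_filter.1 ha).2
    exact_mod_cast this.trans hN
  have hc2 : (Z.filter fun a => Near R a z).card ≤ 2 * N := by
    have : (Z.filter fun a => Near R a z) ⊆
        (Z.filter fun a => dist a z ≤ R) ∪ (Z.filter fun a => dist a (-z) ≤ R) := by
      intro a ha
      obtain ⟨h1, h2 | h2⟩ := Finset.mem_filter.1 ha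
      · exact Finset.mem_union_left _ (Finset.mem_filter.2 ⟨h1, h2⟩)
      · exact Finset.mem_union_right _ (Finset.mem_filter.2 ⟨h1, h2⟩)
    have := (Finset.card_le_card this).trans (Finset.card_union_le _ _)
    linarith [hc z, hc (-z)]
  refine (Finset.sum_le_card_nsmul _ _ (Real.exp (-(n * v))) fun A hA => ?_).trans ?_
  · rw [pi_avoid _ _ (Finset.measurableSet_biUnion _ fun _ _ => measurableSet_ball)]
    have h2 := (Finset.mem_filter.1 hA).2
    have h3 : (unif d).real (⋃ a ∈ A, ball a s) ≤ 1 := measureReal_le_one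
    rw [← mul_neg, Real.exp_nat_mul]
    apply pow_le_pow_left₀ (by linarith)
    linarith [Real.add_one_le_exp (-v)]
  · rw [nsmul_eq_mul]
    gcongr
    have := (Finset.card_filter_le (Z.filter fun a => Near R a z).powerset
      (fun A => v < (unif d).real (⋃ a ∈ A, ball a s)))
    rw [Finset.card_powerset] at this
    exact_mod_cast this.trans (Nat.pow_le_pow_right two_pos hc2)

theorem bad_tendsto (hd : 1 ≤ d) {η R δ : ℝ} (hη : 0 < η) (hR : 0 ≤ R) (hδ : 0 < δ)
    (Z : ℕ → Finset (Sph d)) (hZ : ∀ n, 2 ≤ n → Sep (η * th d n) (Z n)) :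
    Tendsto (fun n => (Pn d n).real
      {X | Bad (Z n) (η * th d n) (R * (η * th d n)) ((1 + δ) * th d n ^ d) X}) atTop (𝓝 0) := by
  obtain ⟨N, hN⟩ := exists_nat_ge ((2 * R + 1) ^ (d + 1))
  set C : ℝ := (d + 1) * 2 ^ (2 * d + 1) with hC
  have t1 : Tendsto (fun n : ℕ => C / η ^ d * 2 ^ (2 * N) * (n : ℝ) ^ (-δ)) atTop
      (𝓝 (C / η ^ d * 2 ^ (2 * N) * 0)) :=
    ((tendsto_rpow_neg_atTop hδ).comp tendsto_natCast_atTop_atTop).const_mul _
  rw [mul_zero] at t1
  refine squeeze_zero' (Eventually.of_forall fun n => measureReal_nonneg) ?_ t1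
  filter_upwards [eventually_ge_atTop 3, th_small hd η one_pos] with n hn h1
  have hθ := th_pos d (show 2 ≤ n by omega)
  have hn0 : (0 : ℝ) < n := by exact_mod_cast (by omega : 0 < n)
  have hs : 0 < η * th d n := by positivity
  refine (bad_prob (N := N) hs (by positivity) (hZ n (by omega)) ?_).trans ?_
  · rwa [show (2 * (R * (η * th d n)) + η * th d n) / (η * th d n) = 2 * R + 1 by field_simp]
  have h2 := pack_sphere hs h1.le (hZ n (by omega))
  rw [mul_pow, th_pow hd, ← hC] at h2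
  have h3 : 1 ≤ Real.log n := by
    rw [Real.le_log_iff_exp_le hn0]
    have : (3 : ℝ) ≤ n := by exact_mod_cast hn
    linarith [Real.exp_one_lt_d9]
  have h4 : ((Z n).card : ℝ) ≤ C / η ^ d * n := by
    rw [div_mul_eq_mul_div, le_div_iff₀ (by positivity)]
    have h5 : ((Z n).card : ℝ) * (η ^ d * (1 / n)) ≤ C := le_trans (by gcongr) h2
    rwa [← mul_assoc, mul_one_div, div_le_iff₀ hn0] at h5
  have h5 : Real.exp (-(n * ((1 + δ) * th d n ^ d))) = (n : ℝ) ^ (-δ) / n := by
    rw [th_pow hd, ← Real.rpow_sub_one hn0.ne', Real.rpow_def_of_pos hn0]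
    congr 1
    field_simp
    ring
  rw [h5]
  calc _ ≤ C / η ^ d * n * (2 ^ (2 * N) * ((n : ℝ) ^ (-δ) / n)) := by gcongr
    _ = _ := by field_simp

theorem greedy {α : Type*} (k : α → ℕ) (rel : α → α → Prop) (hr : ∀ a, rel a a) (Z : Finset α) :
    ∃ C ⊆ Z, (∀ j ∈ Z, ∃ i ∈ C, rel i j) ∧ ∀ i ∈ C, ∀ i' ∈ C, i ≠ i' →
      (k i' ≤ k i ∧ ¬ rel i i') ∨ (k i ≤ k i' ∧ ¬ rel i' i) := by
  classical
  induction Z using Finset.strongInduction with
  | H Z ih =>
    rcases Z.eq_empty_or_nonempty with rfl | hne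
    · exact ⟨∅, by simp⟩
    obtain ⟨i, hi, hmax⟩ := Z.exists_max_image k hne
    obtain ⟨C, hC, h1, h2⟩ := ih (Z.filter fun j => ¬ rel i j)
      (Finset.filter_ssubset.2 ⟨i, hi, by simp [hr]⟩)
    have hC' : ∀ j ∈ C, j ∈ Z ∧ ¬ rel i j := fun j hj => Finset.mem_filter.1 (hC hj)
    refine ⟨insert i C, Finset.insert_subset hi fun j hj => (hC' j hj).1, fun j hj => ?_, ?_⟩
    · by_cases h : rel i j
      · exact ⟨i, by simp, h⟩
      · obtain ⟨c, hc, h'⟩ := h1 j (Finset.mem_filter.2 ⟨hj, h⟩)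
        exact ⟨c, by simp [hc], h'⟩
    · intro a ha b hb hab
      rcases Finset.mem_insert.1 ha with h3 | h3 <;> rcases Finset.mem_insert.1 hb with h4 | h4
      · exact absurd (h3.trans h4.symm) hab
      · rw [h3]; exact Or.inl ⟨hmax _ (hC' b h4).1, (hC' b h4).2⟩
      · rw [h4]; exact Or.inr ⟨hmax _ (hC' a h3).1, (hC' a h3).2⟩
      · exact h2 a h3 b h4 hab

theorem Near.mono {r r' : ℝ} {x y : Sph d} (h : Near r x y) (hr : r ≤ r') : Near r' x y :=
  h.imp (·.trans hr) (·.trans hr)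

/-- extending a colouring of the sample to the complement of the empty net balls -/
theorem ext_col {n : ℕ} {Z : Finset (Sph d)} {s a : ℝ} (hc : ∀ x, ∃ z ∈ Z, dist x z < s)
    {X : Fin n → Sph d} (ha : a ≤ 2) (hcol : Col a X) :
    ∃ g : Sph d → Fin (d + 1), ∀ x y, (∀ z ∈ Z, (∀ i, X i ∉ ball z s) → x ∉ ball z s) →
      (∀ z ∈ Z, (∀ i, X i ∉ ball z s) → y ∉ ball z s) → dist x (-y) < a - 4 * s → g x ≠ g y := by
  classical
  obtain ⟨col, hcol⟩ := hcol
  let g : Sph d → Fin (d + 1) := fun x =>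
    if h : ∃ i, dist (X i) x < 2 * s then col h.choose else 0
  have key : ∀ x, (∀ z ∈ Z, (∀ i, X i ∉ ball z s) → x ∉ ball z s) →
      ∃ i, dist (X i) x < 2 * s ∧ g x = col i := by
    intro x hx
    have h : ∃ i, dist (X i) x < 2 * s := by
      obtain ⟨z, hz, h1⟩ := hc x
      by_contra h2
      push Not at h2
      refine hx z hz (fun i hi => ?_) h1
      have := dist_triangle_right (X i) x z
      rw [mem_ball] at hi
      linarith [h2 i]
    exact ⟨h.choose, h.choose_spec, by simp only [g, dif_pos h]⟩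
  refine ⟨g, fun x y hx hy hxy => ?_⟩
  obtain ⟨i, hi, ei⟩ := key x hx
  obtain ⟨k, hk, ek⟩ := key y hy
  have h1 : dist (X i) (-X k) < a := by
    have := dist_triangle4 (X i) x (-y) (-X k)
    rw [dist_neg_neg', dist_comm y] at this
    linarith
  rw [ei, ek]
  refine hcol i k ?_ h1
  rintro rfl
  rw [dist_neg_self] at h1
  linarith

theorem tmpl_of {n M : ℕ} {Z : Finset (Sph d)} {s a v c : ℝ} (hs : 0 < s) (hZ : Sep s Z)
    (hc : ∀ x, ∃ z ∈ Z, dist x z < s) {X : Fin n → Sph d} (ha : a ≤ 2) (hcol : Col a X)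
    (hb : ¬ Bad Z s (20 ^ (M + 1) * s) v X) (hlow : ∀ x : Sph d, c ≤ (unif d).real (ball x (s / 2)))
    (hc0 : 0 < c) (hM : v < (M + 1) * c) (hs1 : 2 * 20 ^ M * s ≤ 1) :
    Tmpl d (a - 4 * s) (2 * 20 ^ M * s) v := by
  classical
  obtain ⟨g, hg⟩ := ext_col hc ha hcol
  let Ze := Z.filter fun z => ∀ i, X i ∉ ball z s
  let A : Sph d → ℕ → Finset (Sph d) := fun z k => Ze.filter fun a => Near (20 ^ k * s) a z
  have hA : ∀ z ∈ Ze, (unif d).real (⋃ a ∈ A z (M + 1), ball a s) ≤ v := by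
    intro z hz
    by_contra h
    refine hb ⟨z, (Finset.mem_filter.1 hz).1, A z (M + 1), fun a ha =>
      (Finset.mem_filter.1 (Finset.mem_filter.1 ha).1).1, fun a ha => (Finset.mem_filter.1 ha).2,
      not_le.1 h, fun i hi => ?_⟩
    obtain ⟨a, ha, hi⟩ := mem_iUnion₂.1 hi
    exact (Finset.mem_filter.1 (Finset.mem_filter.1 ha).1).2 i hi
  have hcard : ∀ z ∈ Ze, (A z (M + 1)).card ≤ M := by
    intro z hz
    have h1 : (unif d).real (⋃ a ∈ A z (M + 1), ball a (s / 2)) =
        ∑ a ∈ A z (M + 1), (unif d).real (ball a (s / 2)) := by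
      apply measureReal_biUnion_finset
      · intro x hx y hy hxy
        apply ball_disjoint_ball
        have := hZ x (Finset.mem_filter.1 (Finset.mem_filter.1 hx).1).1 y
          (Finset.mem_filter.1 (Finset.mem_filter.1 hy).1).1 hxy
        linarith
      · intro z _; exact measurableSet_ball
      · intro z _; exact measure_ne_top _ _
    have h2 : (unif d).real (⋃ a ∈ A z (M + 1), ball a (s / 2)) ≤ v :=
      (measureReal_mono (iUnion₂_mono fun a _ => ball_subset_ball (by linarith))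
        (measure_ne_top _ _)).trans (hA z hz)
    have h3 := Finset.card_nsmul_le_sum (A z (M + 1)) _ c fun a _ => hlow a
    rw [nsmul_eq_mul, ← h1] at h3
    have h4 : ((A z (M + 1)).card : ℝ) < M + 1 := lt_of_mul_lt_mul_right (by linarith) hc0.le
    have : (A z (M + 1)).card < M + 1 := by exact_mod_cast h4
    omega
  have hmono : ∀ z k, A z k ⊆ A z (k + 1) := fun z k a ha =>
    Finset.mem_filter.2 ⟨(Finset.mem_filter.1 ha).1, (Finset.mem_filter.1 ha).2.mono (by
      gcongr <;> norm_num)⟩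
  have hk : ∀ z, ∃ k ≤ M, z ∈ Ze → A z (k + 1) ⊆ A z k := by
    intro z
    by_contra h
    push Not at h
    have h1 : ∀ k ≤ M + 1, k ≤ (A z k).card := by
      intro k
      induction k with
      | zero => simp
      | succ k ih =>
        intro hk
        have := Finset.card_lt_card (Finset.ssubset_iff_subset_ne.2 ⟨hmono z k, fun e =>
          (h k (by omega)).2 (by rw [e])⟩)
        have := ih (by omega)
        omega
    have := h1 (M + 1) le_rfl
    have := hcard z (h 0 (by omega)).1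
    omega
  choose k hkM hk using hk
  obtain ⟨C, hC, h1, h2⟩ := greedy k (fun i j => Near (20 ^ k i * s) j i)
    (fun a => Or.inl (by rw [dist_self]; positivity)) Ze
  have hp : ∀ z, 1 * s ≤ 20 ^ k z * s := fun z => by
    gcongr; exact one_le_pow₀ (by norm_num)
  have hp' : ∀ z, 20 ^ k z * s ≤ 20 ^ M * s := fun z => by
    gcongr
    · norm_num
    · exact hkM z
  have far : ∀ i ∈ C, ∀ j ∈ C, k j ≤ k i → ¬ Near (20 ^ k i * s) j i →
      5 * (2 * 20 ^ k i * s) + 5 * (2 * 20 ^ k j * s) ≤ dist j i ∧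
      5 * (2 * 20 ^ k i * s) + 5 * (2 * 20 ^ k j * s) ≤ dist j (-i) := by
    intro i hi j hj hji hn
    have h3 : ¬ Near (20 ^ (k i + 1) * s) j i := fun h =>
      hn (Finset.mem_filter.1 (hk i (hC hi) (Finset.mem_filter.2 ⟨hC hj, h⟩))).2
    simp only [Near, not_or, not_le, pow_succ] at h3
    have h4 : 20 ^ k j * s ≤ 20 ^ k i * s := by gcongr; norm_num
    constructor <;> linarith [h3.1, h3.2]
  refine ⟨C, fun z => 2 * 20 ^ k z * s, ⋃ z ∈ Ze, ball z s, g, ?_, ?_, ?_, ?_, ?_⟩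
  · intro c _
    exact ⟨by positivity, by linarith [hp' c]⟩
  · intro c hc c' hc' hne
    rcases h2 c hc c' hc' hne with ⟨h3, h4⟩ | ⟨h3, h4⟩
    · have := far c hc c' hc' h3 h4
      rwa [dist_comm c' c, dist_comm c', dist_neg_comm] at this
    · have := far c' hc' c hc h3 h4
      rwa [add_comm] at this
  · intro x hx
    obtain ⟨z, hz, hx⟩ := mem_iUnion₂.1 hx
    obtain ⟨i, hi, h⟩ := h1 z hz
    refine ⟨i, hi, h.imp (fun h => ?_) fun h => ?_⟩
    · linarith [dist_triangle x z i, mem_ball.1 hx, hp i]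
    · linarith [dist_triangle x z (-i), mem_ball.1 hx, hp i]
  · intro c hc
    have hm : MeasurableSet (⋃ z ∈ Ze, ball z s) :=
      Finset.measurableSet_biUnion _ fun _ _ => measurableSet_ball
    rw [← measureReal_union _ (hm.inter measurableSet_ball)]
    · refine (measureReal_mono ?_ (measure_ne_top _ _)).trans (hA c (hC hc))
      have h3 : (20 : ℝ) ^ (M + 1) * s = 20 * (20 ^ M * s) := by ring
      rintro x (⟨hx, h⟩ | ⟨hx, h⟩) <;> obtain ⟨z, hz, hx⟩ := mem_iUnion₂.1 hx <;>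
        refine mem_biUnion (x := z) (Finset.mem_filter.2 ⟨hz, ?_⟩) hx
      · left
        linarith [dist_triangle_left z c x, mem_ball.1 hx, mem_ball.1 h, hp c, hp' c]
      · right
        linarith [dist_triangle_left z (-c) x, mem_ball.1 hx, mem_ball.1 h, hp c, hp' c]
    · refine Disjoint.mono inter_subset_right inter_subset_right (ball_disjoint_ball ?_)
      rw [dist_neg_self]; linarith [hp' c]
  · intro x y hx hy
    exact hg x y (fun z hz h h' => hx (mem_biUnion (Finset.mem_filter.2 ⟨hz, h⟩) h'))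
      (fun z hz h h' => hy (mem_biUnion (Finset.mem_filter.2 ⟨hz, h⟩) h'))

theorem not_col_of {n : ℕ} {Z : Finset (Sph d)} {s a v R : ℝ}
    (hc : ∀ x, ∃ z ∈ Z, dist x z < s) {X : Fin n → Sph d} (ha : a ≤ 2) (hR : 0 ≤ R)
    (hb : ¬ Bad Z s R v X) (hlow : ∀ x : Sph d, v < (unif d).real (ball x s))
    (hsa : 4 * s < a) : ¬ Col a X := by
  classical
  intro hcol
  obtain ⟨g, hg⟩ := ext_col hc ha hcol
  have h1 : ∀ z ∈ Z, ¬ ∀ i, X i ∉ ball z s := fun z hz h =>
    hb ⟨z, hz, {z}, by simpa using hz, by simp [Near, hR], by simpa using hlow z, by simpa using h⟩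
  obtain ⟨x, y, hx, hy, hxy, e⟩ := Pool.Agent.Lib.BorsukUlam.exists_antipodal d (a - 4 * s)
    (by linarith) fun x => if h : ‖x‖ = 1 then g ⟨x, mem_sphere_zero_iff_norm.2 h⟩ else 0
  simp only [dif_pos hx, dif_pos hy] at e
  exact hg _ _ (fun z hz h => absurd h (h1 z hz)) (fun z hz h => absurd h (h1 z hz))
    (by rw [dist_neg_coe]; exact hxy) e

end Pool.Agent.MP_4a5f01_pr

end

-- part MP_4a5f01_pr.Main
section

set_option autoImplicit false

namespace Pool.Agent.MP_4a5f01_pr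

open MeasureTheory Metric Set Filter Topology InnerProductGeometry

variable {d : ℕ}

theorem dist_sq_angle (x y : Sph d) :
    dist x (-y) ^ 2 = 2 - 2 * Real.cos (Real.pi - angle (x : Eu d) (y : Eu d)) := by
  rw [dist_neg_coe, norm_add_sq_real, nrm, nrm, inner_eq_cos_angle_of_norm_eq_one (nrm x) (nrm y),
    Real.cos_pi_sub]
  ring

theorem adj_dist {x y : Sph d} {α : ℝ} (h : Real.pi - α < angle (x : Eu d) (y : Eu d)) :
    dist x (-y) < α := by
  have h1 := dist_sq_angle x y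
  have h2 := Real.one_sub_sq_div_two_le_cos (x := Real.pi - angle (x : Eu d) (y : Eu d))
  have h3 := angle_le_pi (x : Eu d) (y : Eu d)
  have h4 : dist x (-y) ≤ Real.pi - angle (x : Eu d) (y : Eu d) :=
    abs_le_of_sq_le_sq' (by linarith) (by linarith) |>.2
  linarith

theorem dist_adj {x y : Sph d} {α e : ℝ} (h0 : 0 < α) (h1 : α ≤ e) (he : e ≤ 1)
    (h : dist x (-y) < (1 - e) * α) : Real.pi - α < angle (x : Eu d) (y : Eu d) := by
  by_contra hc
  push Not at hc
  have h2 := dist_sq_angle x y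
  have h3 := angle_nonneg (x : Eu d) (y : Eu d)
  have h4 : Real.cos (Real.pi - angle (x : Eu d) (y : Eu d)) ≤ Real.cos α :=
    Real.cos_le_cos_of_nonneg_of_le_pi h0.le (by linarith) (by linarith)
  have h5 := (abs_le.1 (Real.cos_bound (x := α) (by rw [abs_of_pos h0]; linarith))).2
  rw [abs_of_pos h0] at h5
  have h6 : dist x (-y) ^ 2 < ((1 - e) * α) ^ 2 := by gcongr
  have h7 : α ^ 2 ≤ e := by nlinarith
  have h8 : 0 < α ^ 2 := by positivity
  have h9 : α ^ 4 ≤ e * α ^ 2 := by nlinarith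
  have h10 : e * e * α ^ 2 ≤ e * α ^ 2 := by
    have : e * e ≤ e := by nlinarith
    gcongr
  nlinarith

theorem colorable_of_col {n : ℕ} {α : ℝ} {X : Fin n → Sph d} (h : Col α X) :
    (borsuk α X).Colorable (d + 1) := by
  obtain ⟨col, h⟩ := h
  exact ⟨SimpleGraph.Coloring.mk col fun {i k} hik => h i k hik.1 (adj_dist hik.2)⟩

theorem col_of_colorable {n : ℕ} {α e : ℝ} {X : Fin n → Sph d} (h0 : 0 < α) (h1 : α ≤ e)
    (he : e ≤ 1) (h : (borsuk α X).Colorable (d + 1)) : Col ((1 - e) * α) X := by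
  obtain ⟨col⟩ := h
  exact ⟨col, fun i k hik hd => col.valid ⟨hik, dist_adj h0 h1 he hd⟩⟩

theorem colorable_mono {n : ℕ} {α α' : ℝ} {X : Fin n → Sph d} (h0 : α ≤ α')
    (h : (borsuk α' X).Colorable (d + 1)) : (borsuk α X).Colorable (d + 1) :=
  SimpleGraph.Colorable.mono_left (G := borsuk α X) (G' := borsuk α' X)
    (fun _ _ hik => ⟨hik.1, by linarith [hik.2]⟩) h

theorem Tmpl.mono {β δ δ' v : ℝ} (h : Tmpl d β δ v) (hδ : δ ≤ δ') : Tmpl d β δ' v := by
  obtain ⟨C, ρ, H, g, h1, h2⟩ := h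
  exact ⟨C, ρ, H, g, fun c hc => ⟨(h1 c hc).1, (h1 c hc).2.trans hδ⟩, h2⟩

theorem exists_nets (d : ℕ) {η : ℝ} (hη : 0 < η) : ∃ Z : ℕ → Finset (Sph d), ∀ n, 2 ≤ n →
    Sep (η * th d n) (Z n) ∧ ∀ x, ∃ z ∈ Z n, dist x z < η * th d n := by
  have : ∀ n, ∃ Z : Finset (Sph d), 2 ≤ n →
      Sep (η * th d n) Z ∧ ∀ x, ∃ z ∈ Z, dist x z < η * th d n := by
    intro n
    by_cases hn : 2 ≤ n
    · obtain ⟨Z, -, h1, h2⟩ := exists_net (univ : Set (Sph d)) (mul_pos hη (th_pos d hn))
      exact ⟨Z, fun _ => ⟨h1, fun x => h2 x (mem_univ _)⟩⟩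
    · exact ⟨∅, fun h => absurd h hn⟩
  choose Z hZ using this
  exact ⟨Z, hZ⟩

/-- the set of constants below the threshold -/
def Good (d : ℕ) : Set ℝ := {t | 0 < t ∧ ¬ Tendsto
  (fun n => (Pn d n).real {X | (borsuk (t * th d n) X).Colorable (d + 1)}) atTop (𝓝 0)}

theorem exists_small {f : ℝ → ℝ} (hf : ContinuousAt f 0) (h : f 0 < 1) {b : ℝ} (hb : 0 < b) :
    ∃ e, 0 < e ∧ e < b ∧ f e < 1 := by
  have h1 : ∀ᶠ e in 𝓝 (0 : ℝ), f e < 1 := hf.eventually (gt_mem_nhds h)
  have h2 : ∀ᶠ e in 𝓝 (0 : ℝ), e < b := gt_mem_nhds hb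
  obtain ⟨e, ⟨h3, h4⟩, h5⟩ := (((h1.and h2).filter_mono nhdsWithin_le_nhds).and
    (self_mem_nhdsWithin (s := Ioi (0 : ℝ)))).exists
  exact ⟨e, h5, h4, h3⟩

theorem below (hd : 1 ≤ d) {t s : ℝ} (ht : t ∈ Good d) (hs : 0 < s) (hst : s < t) :
    Tendsto (fun n => (Pn d n).real {X | ¬ Col (s * th d n) X}) atTop (𝓝 0) := by
  by_contra hcon
  have ht0 := ht.1
  obtain ⟨e, he0, he1, he⟩ := exists_small (f := fun e : ℝ =>
    (1 + e) * ((1 + 3 * e) / (1 - 3 * e) * s / ((1 - e) * t - 4 * e)) ^ d) (by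
      refine ContinuousAt.mul (by fun_prop) (ContinuousAt.pow (ContinuousAt.div
        (ContinuousAt.mul (ContinuousAt.div (by fun_prop) (by fun_prop) (by simp)) (by fun_prop))
        (by fun_prop) (by simp [ht0.ne'])) d)) (by
      simp only [add_zero, mul_zero, sub_zero, one_mul, div_one]
      exact pow_lt_one₀ (by positivity) ((div_lt_one ht0).2 hst) (by omega))
    (b := min (1 / 10) (t / 10)) (by positivity)
  rw [lt_min_iff] at he1
  obtain ⟨c0, hc0, hlow⟩ := ball_lower (d := d)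
  obtain ⟨M, hM⟩ := exists_nat_ge ((1 + e) / (c0 * (e / 2) ^ d))
  obtain ⟨Z, hZ⟩ := exists_nets d he0
  refine ht.2 (squeeze_zero' (Eventually.of_forall fun n => measureReal_nonneg) ?_
    (bad_tendsto hd he0 (R := 20 ^ (M + 1)) (by positivity) he0 Z fun n hn => (hZ n hn).1))
  filter_upwards [eventually_ge_atTop 2, th_small hd t he0, th_small hd (2 * 20 ^ M * e) he0,
    th_small hd (e / 2) one_pos] with n hn h1 h2 h3
  have hθ := th_pos d hn
  refine measureReal_mono (fun X hX => ?_) (measure_ne_top _ _)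
  by_contra hb
  have hcol := col_of_colorable (mul_pos ht0 hθ) h1.le (by linarith) hX
  have hT := tmpl_of (M := M) (c := c0 * (e * th d n / 2) ^ d) (mul_pos he0 hθ) (hZ n hn).1
    (hZ n hn).2 (by nlinarith [mul_pos ht0 hθ]) hcol hb
    (fun x => hlow x _ (by positivity) (by linarith)) (by positivity) (by
      rw [div_le_iff₀ (by positivity)] at hM
      have h4 : 0 < th d n ^ d := by positivity
      have h5 : 0 < c0 * (e / 2) ^ d := by positivity
      rw [show e * th d n / 2 = e / 2 * th d n by ring, mul_pow]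
      nlinarith [mul_pos h4 h5]) (by linarith)
  have hβ : 0 < (1 - e) * t - 4 * e := by nlinarith
  refine hcon (transfer hd (hT.mono (δ' := e) (by linarith)) (by nlinarith [mul_pos hβ hθ])
    he1.1.le (by positivity) hs ?_)
  rw [show (1 - e) * (t * th d n) - 4 * (e * th d n) = ((1 - e) * t - 4 * e) * th d n by ring,
    mul_assoc, ← mul_pow, show th d n * ((1 + 3 * e) / (1 - 3 * e) * s /
      (((1 - e) * t - 4 * e) * th d n)) = (1 + 3 * e) / (1 - 3 * e) * s / ((1 - e) * t - 4 * e) by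
        field_simp]
  exact he

theorem good_bdd (hd : 1 ≤ d) : BddAbove (Good d) := by
  obtain ⟨c0, hc0, hlow⟩ := ball_lower (d := d)
  set η := max 1 (3 / c0) with hη
  have hη1 : 1 ≤ η := le_max_left _ _
  have hη2 : 3 ≤ c0 * η ^ d := by
    have h1 : 3 / c0 ≤ η ^ d := (le_max_right _ _).trans (le_self_pow₀ hη1 (by omega))
    rwa [div_le_iff₀ hc0, mul_comm] at h1
  have hη0 : 0 < η := by linarith
  refine ⟨10 * η, fun t ht => ?_⟩
  by_contra hlt
  push Not at hlt
  have ht0 := ht.1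
  obtain ⟨Z, hZ⟩ := exists_nets d hη0
  refine ht.2 (squeeze_zero' (Eventually.of_forall fun n => measureReal_nonneg) ?_
    (bad_tendsto hd hη0 (R := 0) le_rfl one_pos Z fun n hn => (hZ n hn).1))
  filter_upwards [eventually_ge_atTop 2, th_small hd t (half_pos one_pos),
    th_small hd η one_pos] with n hn h1 h2
  have hθ := th_pos d hn
  refine measureReal_mono (fun X hX => ?_) (measure_ne_top _ _)
  by_contra hb
  have hcol := col_of_colorable (mul_pos ht0 hθ) h1.le (by linarith) hX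
  refine not_col_of (hZ n hn).2 (by linarith) (by simp) hb (fun x => ?_) (by nlinarith) hcol
  refine lt_of_lt_of_le ?_ (hlow x _ (by positivity) h2.le)
  have h4 : 0 < th d n ^ d := by positivity
  rw [mul_pow]
  nlinarith

theorem one_le_add {n : ℕ} (A : Set (Fin n → Sph d)) :
    1 ≤ (Pn d n).real A + (Pn d n).real Aᶜ := by
  have := measureReal_union_le (μ := Pn d n) A Aᶜ
  rwa [union_compl_self, probReal_univ] at this

theorem good_nonempty (hd : 1 ≤ d) : (Good d).Nonempty := by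
  have hd' : (1 : ℝ) ≤ d := by exact_mod_cast hd
  set β : ℝ := 1 / (30 * d) with hβ
  have hβ0 : 0 < β := by positivity
  obtain ⟨s, hs0, -, hs⟩ := exists_small (f := fun s : ℝ =>
    2 * (18 * d * β) ^ d * ((1 + 3 * (3 * d * β)) / (1 - 3 * (3 * d * β)) * s / β) ^ d)
    (by fun_prop) (by simp [show d ≠ 0 by omega]) one_pos
  have h := transfer hd (tmpl_explicit hd hβ0) hβ0 (le_of_eq (by rw [hβ]; field_simp; norm_num))
    (by positivity) hs0 hs
  refine ⟨s, hs0, fun h' => ?_⟩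
  have h2 := h'.add h
  rw [add_zero] at h2
  obtain ⟨n, hn⟩ := (h2.eventually (gt_mem_nhds one_pos)).exists
  have h3 := one_le_add {X : Fin n → Sph d | (borsuk (s * th d n) X).Colorable (d + 1)}
  have h4 : (Pn d n).real {X | (borsuk (s * th d n) X).Colorable (d + 1)}ᶜ ≤
      (Pn d n).real {X | ¬ Col (s * th d n) X} :=
    measureReal_mono (fun X hX hc => hX (colorable_of_col hc)) (measure_ne_top _ _)
  linarith

theorem prob_eq (n : ℕ) (α : ℝ) :
    prob d n α = (Pn d n).real {X | (borsuk α X).Colorable (d + 1)}ᶜ := by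
  unfold prob
  congr 1
  ext X
  simp only [mem_ofPred_eq, mem_compl_iff, ← SimpleGraph.chromaticNumber_le_iff_colorable, not_le]

theorem main (hd : 1 ≤ d) : ∃ c : ℝ, 0 < c ∧ ∀ ε : ℝ, 0 < ε → ∀ α : ℕ → ℝ,
    ((∀ᶠ n in atTop, (1 + ε) * c * th d n < α n) →
      Tendsto (fun n => prob d n (α n)) atTop (𝓝 1)) ∧
    ((∀ᶠ n in atTop, α n < (1 - ε) * c * th d n) →
      Tendsto (fun n => prob d n (α n)) atTop (𝓝 0)) := by
  obtain ⟨s0, hs0⟩ := good_nonempty hd
  have hc : 0 < sSup (Good d) := hs0.1.trans_le (le_csSup (good_bdd hd) hs0)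
  refine ⟨sSup (Good d), hc, fun ε hε α => ⟨fun h => ?_, fun h => ?_⟩⟩
  · have h1 : (1 + ε) * sSup (Good d) ∉ Good d := fun h' => by
      have := le_csSup (good_bdd hd) h'
      nlinarith
    have h2 : Tendsto (fun n => (Pn d n).real
        {X | (borsuk ((1 + ε) * sSup (Good d) * th d n) X).Colorable (d + 1)}) atTop (𝓝 0) := by
      by_contra h'
      exact h1 ⟨by positivity, h'⟩
    have h3 := h2.const_sub 1
    rw [sub_zero] at h3
    refine tendsto_of_tendsto_of_tendsto_of_le_of_le' h3 tendsto_const_nhds ?_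
      (Eventually.of_forall fun n => by rw [prob_eq]; exact measureReal_le_one)
    filter_upwards [h] with n hn
    rw [prob_eq]
    have h4 := one_le_add {X : Fin n → Sph d | (borsuk (α n) X).Colorable (d + 1)}
    have h5 : (Pn d n).real {X | (borsuk (α n) X).Colorable (d + 1)} ≤ (Pn d n).real
        {X | (borsuk ((1 + ε) * sSup (Good d) * th d n) X).Colorable (d + 1)} :=
      measureReal_mono (fun X hX => colorable_mono hn.le hX) (measure_ne_top _ _)
    linarith
  · obtain ⟨t, ht, hst⟩ := exists_lt_of_lt_csSup ⟨s0, hs0⟩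
      (show max ((1 - ε) * sSup (Good d)) (sSup (Good d) / 2) < sSup (Good d) from
        max_lt (by nlinarith) (by linarith))
    refine squeeze_zero' (Eventually.of_forall fun n => measureReal_nonneg) ?_
      (below hd ht (lt_max_of_lt_right (half_pos hc)) hst)
    filter_upwards [h, eventually_ge_atTop 2] with n hn hn2
    rw [prob_eq]
    refine measureReal_mono (fun X hX hc => hX (colorable_mono (hn.le.trans ?_)
      (colorable_of_col hc))) (measure_ne_top _ _)
    exact mul_le_mul_of_nonneg_right (le_max_left _ _) (th_pos d hn2).le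

theorem measurable_event (n : ℕ) (α : ℝ) : MeasurableSet
    {X : Fin n → Sph d | ((d + 1 : ℕ) : ℕ∞) < (borsuk α X).chromaticNumber} := by
  have e : {X : Fin n → Sph d | ((d + 1 : ℕ) : ℕ∞) < (borsuk α X).chromaticNumber} =
      ⋂ col : Fin n → Fin (d + 1), ⋃ i, ⋃ k, ⋃ (_ : i ≠ k ∧ col i = col k),
        {X | Real.pi - α < angle (X i : Eu d) (X k : Eu d)} := by
    ext X
    simp only [mem_ofPred_eq, ← not_le, SimpleGraph.chromaticNumber_le_iff_colorable, mem_iInter,
      mem_iUnion, exists_prop]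
    constructor
    · intro h col
      by_contra hc
      push Not at hc
      exact h ⟨SimpleGraph.Coloring.mk col fun {i k} hik e => absurd hik.2
        (not_lt.2 (hc i k ⟨hik.1, e⟩))⟩
    · rintro h ⟨col⟩
      obtain ⟨i, k, ⟨h1, h2⟩, h3⟩ := h col
      exact col.valid (show (borsuk α X).Adj i k from ⟨h1, not_le.1 h3⟩) h2
  rw [e]
  refine MeasurableSet.iInter fun col => MeasurableSet.iUnion fun i => MeasurableSet.iUnion
    fun k => MeasurableSet.iUnion fun _ => measurableSet_lt measurable_const ?_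
  unfold angle
  fun_prop

end Pool.Agent.MP_4a5f01_pr

end
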